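import Mathlib

set_option autoImplicit false

/-! Compactness for finitely determined events, and the number of paths through a point. -/

namespace Pool.Agent.Lib.MP_1df68a_gt.LM

theorem compact_choice {I W : Type} {K : ℕ} (bad : W → Set (I → Fin K)) (T : W → Finset I)
    (hdet : ∀ w ω ω', (∀ i ∈ T w, ω i = ω' i) → ω ∈ bad w → ω' ∈ bad w)
    (hfin : ∀ F : Finset W, ∃ ω, ∀ w ∈ F, ω ∉ bad w) : ∃ ω : I → Fin K, ∀ w, ω ∉ bad w := by
  classical
  have hclosed : ∀ w, IsClosed (bad w)ᶜ := by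
    intro w
    let res : (I → Fin K) → (T w → Fin K) := fun ω i => ω i
    have hres : Continuous res := continuous_pi fun i => continuous_apply _
    have : (bad w)ᶜ = res ⁻¹' (res '' (bad w)ᶜ) := by
      ext ω
      constructor
      · intro h
        exact ⟨ω, h, rfl⟩
      · rintro ⟨ω', h', hω⟩ h
        refine h' (hdet w ω ω' (fun i hi => ?_) h)
        exact (congrFun hω ⟨i, hi⟩).symm
    rw [this]
    exact (isClosed_discrete _).preimage hres
  have h := isCompact_univ.inter_iInter_nonempty (X := I → Fin K) (fun w => (bad w)ᶜ) hclosed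
    (by
      intro F
      obtain ⟨ω, hω⟩ := hfin F
      refine ⟨ω, Set.mem_univ _, ?_⟩
      simp only [Set.mem_iInter]
      intro w hw
      exact hω w hw)
  obtain ⟨ω, -, hω⟩ := h
  refine ⟨ω, fun w => ?_⟩
  exact Set.mem_iInter.1 hω w

/-- Number of paths of `k` points with a given point at a given place. -/
theorem path_count {A : Type} [DecidableEq A] (lk : A → A → Prop) (k Δ : ℕ) (hΔ : 0 < Δ)
    (nb : A → Finset A) (hnb : ∀ α, (nb α).card ≤ Δ)
    (h1 : ∀ α β, lk α β → β ∈ nb α) (h2 : ∀ α β, lk α β → α ∈ nb β) (β : A) (j : Fin k) :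
    ∃ P : Finset (Fin k → A), P.card ≤ Δ ^ k ∧
      ∀ w : Fin k → A, (∀ i i' : Fin k, (i : ℕ) + 1 = i' → lk (w i) (w i')) → w j = β → w ∈ P := by
  classical
  let e : A → Fin Δ → A := fun α t =>
    if h : (t : ℕ) < (nb α).card then ((nb α).equivFin.symm ⟨t, h⟩ : A) else α
  have he : ∀ α γ, γ ∈ nb α → ∃ t, e α t = γ := by
    intro α γ hγ
    have hlt : ((nb α).equivFin ⟨γ, hγ⟩ : ℕ) < (nb α).card := ((nb α).equivFin ⟨γ, hγ⟩).2
    refine ⟨⟨(nb α).equivFin ⟨γ, hγ⟩, hlt.trans_le (hnb α)⟩, ?_⟩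
    simp only [e, hlt, dif_pos, Fin.eta, Equiv.symm_apply_apply]
  let ex : (Fin k → Fin Δ) → ℕ → Fin Δ := fun c n => if h : n < k then c ⟨n, h⟩ else ⟨0, hΔ⟩
  let F : (Fin k → Fin Δ) → ℕ → A := fun c t =>
    Nat.rec β (fun t x => e x (ex c (j + (t + 1)))) t
  let G : (Fin k → Fin Δ) → ℕ → A := fun c t =>
    Nat.rec β (fun t x => e x (ex c (j - (t + 1)))) t
  have hF : ∀ c t, F c (t + 1) = e (F c t) (ex c (j + (t + 1))) := fun c t => rfl
  have hG : ∀ c t, G c (t + 1) = e (G c t) (ex c (j - (t + 1))) := fun c t => rfl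
  let dec : (Fin k → Fin Δ) → Fin k → A := fun c i =>
    if (j : ℕ) ≤ i then F c (i - j) else G c (j - i)
  refine ⟨(Finset.univ : Finset (Fin k → Fin Δ)).image dec, ?_, ?_⟩
  · refine Finset.card_image_le.trans ?_
    simp
  · intro w hw hj
    have hcode : ∀ i : Fin k, ∃ t : Fin Δ,
        (∀ i' : Fin k, (i' : ℕ) + 1 = i → (j : ℕ) < i → e (w i') t = w i) ∧
        (∀ i' : Fin k, (i : ℕ) + 1 = i' → (i : ℕ) < j → e (w i') t = w i) := by
      intro i
      rcases lt_trichotomy (j : ℕ) (i : ℕ) with h | h | h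
      · have hi' : (i : ℕ) - 1 < k := lt_of_le_of_lt (Nat.sub_le _ _) i.2
        obtain ⟨t, ht⟩ := he (w ⟨i - 1, hi'⟩) (w i) (h1 _ _ (hw ⟨i - 1, hi'⟩ i (by
          show (i : ℕ) - 1 + 1 = i
          omega)))
        refine ⟨t, fun i' hi'' _ => ?_, fun i' _ h' => by omega⟩
        have : i' = ⟨i - 1, hi'⟩ := Fin.ext (by show (i' : ℕ) = i - 1; omega)
        rw [this]
        exact ht
      · exact ⟨⟨0, hΔ⟩, fun i' _ h' => by omega, fun i' _ h' => by omega⟩
      · have hi' : (i : ℕ) + 1 < k := by have := j.2; omega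
        obtain ⟨t, ht⟩ := he (w ⟨i + 1, hi'⟩) (w i) (h2 _ _ (hw i ⟨i + 1, hi'⟩ rfl))
        refine ⟨t, fun i' _ h' => by omega, fun i' hi'' _ => ?_⟩
        have : i' = ⟨i + 1, hi'⟩ := Fin.ext (by show (i' : ℕ) = i + 1; omega)
        rw [this]
        exact ht
    choose c hc1 hc2 using hcode
    have hFw : ∀ t (h : (j : ℕ) + t < k), F c t = w ⟨j + t, h⟩ := by
      intro t
      induction t with
      | zero => intro h; exact hj.symm
      | succ t ih =>
        intro h
        have h' : (j : ℕ) + t < k := by omega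
        rw [hF, ih h']
        have hex : ex c (j + (t + 1)) = c ⟨j + (t + 1), h⟩ := by simp only [ex, h, dif_pos]
        rw [hex]
        exact hc1 ⟨j + (t + 1), h⟩ ⟨j + t, h'⟩ (by show (j : ℕ) + t + 1 = j + (t + 1); omega)
          (by show (j : ℕ) < j + (t + 1); omega)
    have hGw : ∀ t (h : t ≤ (j : ℕ)), G c t = w ⟨j - t, by have := j.2; omega⟩ := by
      intro t
      induction t with
      | zero => intro h; exact hj.symm
      | succ t ih =>
        intro h
        have h' : t ≤ (j : ℕ) := by omega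
        have hk' : (j : ℕ) - (t + 1) < k := by have := j.2; omega
        rw [hG, ih h']
        have hex : ex c (j - (t + 1)) = c ⟨j - (t + 1), hk'⟩ := by simp only [ex, hk', dif_pos]
        rw [hex]
        exact hc2 ⟨j - (t + 1), hk'⟩ ⟨j - t, by have := j.2; omega⟩
          (by show (j : ℕ) - (t + 1) + 1 = j - t; omega)
          (by show (j : ℕ) - (t + 1) < j; omega)
    rw [Finset.mem_image]
    refine ⟨c, Finset.mem_univ _, ?_⟩
    funext i
    show (if (j : ℕ) ≤ i then F c (i - j) else G c (j - i)) = w i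
    split_ifs with h
    · rw [hFw (i - j) (by have := i.2; omega)]
      congr 1
      exact Fin.ext (by show (j : ℕ) + (i - j) = i; omega)
    · rw [hGw (j - i) (by omega)]
      congr 1
      exact Fin.ext (by show (j : ℕ) - (j - i) = i; omega)

end Pool.Agent.Lib.MP_1df68a_gt.LM
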