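import Pool.Agent.Lib.MP_763321_co.LLL
import Pool.Agent.Lib.MP_1df68a_gt.LM.Comp29

set_option autoImplicit false

/-! The local lemma for paths of events with independent members. -/

namespace Pool.Agent.Lib.MP_1df68a_gt.LM

open Finset Pool.Agent.Lib.MP_763321_co.LLL

section Product

set_option linter.unusedSectionVars false

variable {V β : Type} [Fintype V] [DecidableEq V] [DecidableEq β] {K : ℕ}

/-- The local lemma for random functions, events indexed by an arbitrary finite set. -/
theorem product_lll' (hK : 0 < K) (F : Finset β) (E : β → Finset (V → Fin K)) (T : β → Finset V)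
    (hdet : ∀ v, DetBy (E v) (T v)) (p d : ℝ) (hp : 0 ≤ p) (hp2 : 2 * p < 1)
    (hE : ∀ v ∈ F, ((E v).card : ℝ) ≤ p * (univ : Finset (V → Fin K)).card)
    (hd : ∀ v ∈ F, ((F.filter (fun v' => ¬ Disjoint (T v) (T v'))).card : ℝ) ≤ d)
    (hpd : 4 * p * d ≤ 1) : ∃ κ : V → Fin K, ∀ v ∈ F, κ ∉ E v := by
  have hne : (univ : Finset (V → Fin K)).Nonempty := ⟨fun _ => ⟨0, hK⟩, mem_univ _⟩
  have h := lll (univ : Finset (V → Fin K)) hne E F
    (fun v => F.filter (fun v' => ¬ Disjoint (T v) (T v'))) p d hp hp2 hd hpd
    (by
      intro v hvF S hSF hdis hvS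
      have hcardpos : (0 : ℝ) < (univ : Finset (V → Fin K)).card := by
        exact_mod_cast card_pos.2 hne
      have h1 : (good univ E S).filter (fun w => w ∈ E v) = E v ∩ good univ E S := by
        ext w
        rw [mem_filter, mem_inter, and_comm]
      have hgood : DetBy (good univ E S) (T v)ᶜ := by
        intro κ κ' hκ
        rw [mem_good, mem_good]
        have h2 : ∀ v' ∈ S, (κ ∈ E v' ↔ κ' ∈ E v') := by
          intro v' hv'
          apply hdet v'
          intro u hu
          apply hκ
          rw [mem_compl]
          intro huT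
          have h3 : v' ∈ F.filter (fun v' => ¬ Disjoint (T v) (T v')) := by
            rw [mem_filter]
            refine ⟨hSF hv', fun hd' => ?_⟩
            exact (Finset.disjoint_left.1 hd') huT hu
          exact (Finset.disjoint_left.1 hdis) hv' h3
        constructor
        · rintro ⟨_, h4⟩
          exact ⟨mem_univ _, fun B hB => fun h5 => h4 B hB ((h2 B hB).2 h5)⟩
        · rintro ⟨_, h4⟩
          exact ⟨mem_univ _, fun B hB => fun h5 => h4 B hB ((h2 B hB).1 h5)⟩
      have h5 := indep_count (E v) (good univ E S) (T v) (hdet v) hgood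
      rw [h1]
      have h6 : ((E v ∩ good univ E S).card : ℝ) * (univ : Finset (V → Fin K)).card =
          (E v).card * (good univ E S).card := by exact_mod_cast h5
      have h7 : ((E v ∩ good univ E S).card : ℝ) * (univ : Finset (V → Fin K)).card ≤
          (p * (good univ E S).card) * (univ : Finset (V → Fin K)).card := by
        rw [h6]
        calc ((E v).card : ℝ) * (good univ E S).card
            ≤ (p * (univ : Finset (V → Fin K)).card) * (good univ E S).card :=
              mul_le_mul_of_nonneg_right (hE v hvF) (by positivity)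
          _ = _ := by ring
      exact le_of_mul_le_mul_right h7 hcardpos)
  obtain ⟨κ, hκ⟩ := h
  rw [mem_good] at hκ
  exact ⟨κ, fun v => hκ.2 v⟩

/-- The probability of an event. -/
noncomputable def pr (E : Finset (V → Fin K)) : ℝ :=
  (E.card : ℝ) / (univ : Finset (V → Fin K)).card

theorem pr_nonneg (E : Finset (V → Fin K)) : 0 ≤ pr E := by unfold pr; positivity

theorem card_pos' (hK : 0 < K) : (0 : ℝ) < (univ : Finset (V → Fin K)).card := by
  have hne : (univ : Finset (V → Fin K)).Nonempty := ⟨fun _ => ⟨0, hK⟩, mem_univ _⟩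
  exact_mod_cast card_pos.2 hne

theorem pr_mono {E E' : Finset (V → Fin K)} (h : E ⊆ E') : pr E ≤ pr E' := by
  unfold pr
  have : (E.card : ℝ) ≤ E'.card := by exact_mod_cast card_le_card h
  gcongr

theorem pr_inter (hK : 0 < K) {A B : Finset (V → Fin K)} {T T' : Finset V} (hA : DetBy A T)
    (hB : DetBy B T') (hT : Disjoint T T') : pr (A ∩ B) = pr A * pr B := by
  have h := indep_count A B T hA (hB.mono (fun v hv => by
    rw [mem_compl]
    intro hv'
    exact (Finset.disjoint_left.1 hT) hv' hv))
  have hpos := card_pos' (V := V) hK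
  have h' : ((A ∩ B).card : ℝ) * (univ : Finset (V → Fin K)).card = A.card * B.card := by
    exact_mod_cast h
  unfold pr
  rw [div_mul_div_comm, div_eq_div_iff hpos.ne' (by positivity)]
  calc ((A ∩ B).card : ℝ) * ((univ : Finset (V → Fin K)).card * (univ : Finset (V → Fin K)).card)
      = (((A ∩ B).card : ℝ) * (univ : Finset (V → Fin K)).card) *
          (univ : Finset (V → Fin K)).card := by ring
    _ = _ := by rw [h']

theorem pr_univ (hK : 0 < K) : pr (univ : Finset (V → Fin K)) = 1 := by
  unfold pr
  exact div_self (card_pos' hK).ne'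

theorem pr_union_le (A B : Finset (V → Fin K)) : pr (A ∪ B) ≤ pr A + pr B := by
  unfold pr
  rw [← add_div]
  have : ((A ∪ B).card : ℝ) ≤ A.card + B.card := by exact_mod_cast card_union_le A B
  gcongr

theorem pr_biUnion_le {ι : Type} [DecidableEq ι] (s : Finset ι) (A : ι → Finset (V → Fin K)) :
    pr (s.biUnion A) ≤ ∑ i ∈ s, pr (A i) := by
  induction s using Finset.induction_on with
  | empty => simp [pr]
  | insert a s ha ih =>
    rw [biUnion_insert, sum_insert ha]
    exact (pr_union_le _ _).trans (by gcongr)

/-- Residue classes. -/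
theorem pr_mod (v : V) (m c : ℕ) (hm : m ∣ K) (hK : 0 < K) :
    pr (univ.filter (fun ω : V → Fin K => (ω v : ℕ) % m = c)) ≤ 1 / m := by
  obtain ⟨t, rfl⟩ := hm
  have hm0 : 0 < m := Nat.pos_of_mul_pos_right hK
  have ht0 : 0 < t := Nat.pos_of_mul_pos_left hK
  have hS : (univ.filter (fun x : Fin (m * t) => (x : ℕ) % m = c)).card ≤ t := by
    have h := Finset.card_le_card_of_injOn (s := univ.filter (fun x : Fin (m * t) => (x : ℕ) % m = c))
      (t := Finset.range t) (fun x => (x : ℕ) / m) (by
        intro x _
        rw [Finset.coe_range, Set.mem_Iio]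
        exact Nat.div_lt_of_lt_mul x.2) (by
        intro x hx y hy hxy
        rw [Finset.mem_coe, mem_filter] at hx hy
        apply Fin.ext
        have hxy' : (x : ℕ) / m = (y : ℕ) / m := hxy
        rw [← Nat.div_add_mod (x : ℕ) m, ← Nat.div_add_mod (y : ℕ) m, hxy', hx.2, hy.2])
    rwa [card_range] at h
  have heq : univ.filter (fun ω : V → Fin (m * t) => (ω v : ℕ) % m = c) =
      Fintype.piFinset (fun u => if u = v then univ.filter (fun x : Fin (m * t) => (x : ℕ) % m = c)
        else univ) := by
    ext ω
    rw [mem_filter, Fintype.mem_piFinset]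
    constructor
    · rintro ⟨-, h⟩ u
      split_ifs with hu
      · subst hu
        exact mem_filter.2 ⟨mem_univ _, h⟩
      · exact mem_univ _
    · intro h
      have := h v
      rw [if_pos rfl, mem_filter] at this
      exact ⟨mem_univ _, this.2⟩
  unfold pr
  rw [heq, Fintype.card_piFinset, div_le_div_iff₀ (card_pos' hK) (by exact_mod_cast hm0), one_mul]
  rw [← Finset.mul_prod_erase univ _ (mem_univ v), if_pos rfl]
  have h1 : ∏ u ∈ univ.erase v, (if u = v then univ.filter (fun x : Fin (m * t) => (x : ℕ) % m = c)
      else univ).card = (m * t) ^ (univ.erase v).card := by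
    rw [← Finset.prod_const]
    apply Finset.prod_congr rfl
    intro u hu
    rw [if_neg (Finset.ne_of_mem_erase hu), card_univ, Fintype.card_fin]
  rw [h1, card_univ, Fintype.card_fun, Fintype.card_fin]
  have h2 : Fintype.card V = (univ.erase v).card + 1 := by
    rw [card_erase_of_mem (mem_univ v), card_univ]
    have : 0 < Fintype.card V := Fintype.card_pos_iff.2 ⟨v⟩
    omega
  rw [h2, pow_succ]
  have h3 : (univ.filter (fun x : Fin (m * t) => (x : ℕ) % m = c)).card *
      (m * t) ^ (univ.erase v).card * m ≤ (m * t) ^ (univ.erase v).card * (m * t) := by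
    calc _ ≤ t * (m * t) ^ (univ.erase v).card * m := by gcongr
      _ = _ := by ring
  exact_mod_cast h3

end Product

/-- All paths of `k` linked points carrying independent rare events can be avoided. -/
theorem core {A I S : Type} {K : ℕ} (hK : 0 < K) (T : A → Finset I)
    (cut : A → (I → Fin K) → Prop)
    (hdet : ∀ α ω ω', (∀ i ∈ T α, ω i = ω' i) → cut α ω → cut α ω')
    (m : I → ℕ) (hm : ∀ i, m i ∣ K) (c : A → I → ℕ)
    (hcut : ∀ α ω, cut α ω → ∃ i ∈ T α, (ω i : ℕ) % m i = c α i)
    (δ : ℝ) (hδ : 0 ≤ δ) (hsum : ∀ α, ∑ i ∈ T α, (1 / (m i : ℝ)) ≤ δ)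
    (lk : A → A → Prop) (σ : A → S) (hσ : ∀ α β, lk α β → σ α = σ β)
    (hdis : ∀ α β, σ α = σ β → α ≠ β → Disjoint (T α) (T β))
    (Δ B k : ℕ) (hΔ : 0 < Δ)
    (nb : A → Finset A) (hnb : ∀ α, (nb α).card ≤ Δ)
    (h1 : ∀ α β, lk α β → β ∈ nb α) (h2 : ∀ α β, lk α β → α ∈ nb β)
    (sh : A → Finset A) (hsh : ∀ α, (sh α).card ≤ B)
    (hsh' : ∀ α β, ¬ Disjoint (T α) (T β) → β ∈ sh α)
    (hnum : 4 * δ ^ k * ((k : ℝ) ^ 2 * B * (Δ : ℝ) ^ k) ≤ 1) (hnum2 : 2 * δ ^ k < 1) :
    ∃ ω : I → Fin K, ∀ w : Fin k → A, (∀ i i' : Fin k, (i : ℕ) + 1 = i' → lk (w i) (w i')) →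
      Function.Injective w → ¬ ∀ i, cut (w i) ω := by
  classical
  have hsame : ∀ w : Fin k → A, (∀ i i' : Fin k, (i : ℕ) + 1 = i' → lk (w i) (w i')) →
      ∀ i j : Fin k, σ (w i) = σ (w j) := by
    intro w hw
    have h0 : ∀ n (hn : n < k) (h0 : 0 < k), σ (w ⟨n, hn⟩) = σ (w ⟨0, h0⟩) := by
      intro n
      induction n with
      | zero => intro _ _; rfl
      | succ n ih =>
        intro hn h0
        rw [← ih (by omega) h0]
        exact (hσ _ _ (hw ⟨n, by omega⟩ ⟨n + 1, hn⟩ rfl)).symm
    intro i j
    have hk : 0 < k := lt_of_le_of_lt (Nat.zero_le _) i.2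
    rw [h0 i i.2 hk, h0 j j.2 hk]
  obtain ⟨ω, hω⟩ := compact_choice (I := I) (K := K)
    (W := {w : Fin k → A // (∀ i i' : Fin k, (i : ℕ) + 1 = i' → lk (w i) (w i')) ∧
      Function.Injective w}) (fun w => {ω | ∀ i, cut (w.1 i) ω})
    (fun w => univ.biUnion fun i => T (w.1 i)) (by
      intro w ω ω' h hcw i
      exact hdet _ ω ω' (fun x hx => h x (mem_biUnion.2 ⟨i, mem_univ _, hx⟩)) (hcw i)) (by
      intro F
      set J : Finset I := F.biUnion fun w => univ.biUnion fun i => T (w.1 i) with hJ
      let ext : (J → Fin K) → I → Fin K := fun g i => if h : i ∈ J then g ⟨i, h⟩ else ⟨0, hK⟩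
      let TV : Finset I → Finset J := fun t => t.subtype (fun i => i ∈ J)
      have hext : ∀ (t : Finset I) (g g' : J → Fin K), (∀ v ∈ TV t, g v = g' v) →
          ∀ i ∈ t, ext g i = ext g' i := by
        intro t g g' h i hi
        show (if h : i ∈ J then g ⟨i, h⟩ else ⟨0, hK⟩) = (if h : i ∈ J then g' ⟨i, h⟩ else ⟨0, hK⟩)
        split_ifs with hiJ
        · exact h ⟨i, hiJ⟩ (by rw [Finset.mem_subtype]; exact hi)
        · rfl
      let E1 : A → Finset (J → Fin K) := fun α => univ.filter fun g => cut α (ext g)
      have hE1 : ∀ α, DetBy (E1 α) (TV (T α)) := by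
        intro α g g' h
        simp only [E1, mem_filter, mem_univ, true_and]
        constructor
        · exact hdet _ _ _ (hext _ _ _ h)
        · exact hdet _ _ _ (hext _ _ _ fun v hv => (h v hv).symm)
      have hpr1 : ∀ α, T α ⊆ J → pr (E1 α) ≤ δ := by
        intro α hα
        have hsub : E1 α ⊆ (TV (T α)).biUnion fun v =>
            univ.filter fun g : J → Fin K => (g v : ℕ) % m v = c α v := by
          intro g hg
          simp only [E1, mem_filter, mem_univ, true_and] at hg
          obtain ⟨i, hi, hc⟩ := hcut α _ hg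
          have hiJ := hα hi
          rw [mem_biUnion]
          refine ⟨⟨i, hiJ⟩, by rw [Finset.mem_subtype]; exact hi, ?_⟩
          rw [mem_filter]
          refine ⟨mem_univ _, ?_⟩
          have : ext g i = g ⟨i, hiJ⟩ := by
            show (if h : i ∈ J then g ⟨i, h⟩ else ⟨0, hK⟩) = _
            rw [dif_pos hiJ]
          rw [← this]
          exact hc
        refine (pr_mono hsub).trans ((pr_biUnion_le _ _).trans ?_)
        refine (sum_le_sum (g := fun v : J => 1 / (m (v : I) : ℝ)) fun v _ =>
          pr_mod (V := J) v (m (v : I)) (c α (v : I)) (hm (v : I)) hK).trans ?_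
        rw [show ∑ v ∈ TV (T α), (1 / (m (v : I) : ℝ)) = ∑ i ∈ (T α).filter (fun i => i ∈ J),
          (1 / (m i : ℝ)) from Finset.sum_subtype_eq_sum_filter (s := T α) (fun i => 1 / (m i : ℝ))]
        refine le_trans ?_ (hsum α)
        exact sum_le_sum_of_subset_of_nonneg (filter_subset _ _) fun i _ _ => by positivity
      let E : {w : Fin k → A // (∀ i i' : Fin k, (i : ℕ) + 1 = i' → lk (w i) (w i')) ∧
        Function.Injective w} → Finset (J → Fin K) := fun w =>
          univ.filter fun g => ∀ i, cut (w.1 i) (ext g)
      have hprE : ∀ w ∈ F, pr (E w) ≤ δ ^ k := by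
        intro w hw
        have key : ∀ s : Finset (Fin k),
            DetBy (univ.filter fun g : J → Fin K => ∀ i ∈ s, cut (w.1 i) (ext g))
              (TV (s.biUnion fun i => T (w.1 i))) ∧
            pr (univ.filter fun g : J → Fin K => ∀ i ∈ s, cut (w.1 i) (ext g)) ≤ δ ^ s.card := by
          intro s
          induction s using Finset.induction_on with
          | empty =>
            constructor
            · intro g g' _
              simp
            · have : (univ.filter fun g : J → Fin K => ∀ i ∈ (∅ : Finset (Fin k)),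
                  cut (w.1 i) (ext g)) = univ := by simp
              rw [this, pr_univ hK]
              simp
          | insert a s ha ih =>
            have hsplit : (univ.filter fun g : J → Fin K => ∀ i ∈ insert a s,
                cut (w.1 i) (ext g)) = E1 (w.1 a) ∩
                  (univ.filter fun g : J → Fin K => ∀ i ∈ s, cut (w.1 i) (ext g)) := by
              ext g
              simp only [E1, mem_filter, mem_univ, true_and, mem_inter, mem_insert]
              constructor
              · intro h
                exact ⟨h a (Or.inl rfl), fun i hi => h i (Or.inr hi)⟩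
              · rintro ⟨h, h'⟩ i (rfl | hi)
                · exact h
                · exact h' i hi
            have hdisj : Disjoint (TV (T (w.1 a))) (TV (s.biUnion fun i => T (w.1 i))) := by
              rw [Finset.disjoint_left]
              intro v hv hv'
              rw [Finset.mem_subtype] at hv hv'
              obtain ⟨i, hi, hvi⟩ := mem_biUnion.1 hv'
              have hne : w.1 a ≠ w.1 i := fun h => ha (by rw [w.2.2 h]; exact hi)
              exact (Finset.disjoint_left.1 (hdis _ _ (hsame w.1 w.2.1 a i) hne)) hv hvi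
            constructor
            · intro g g' hg
              simp only [mem_filter, mem_univ, true_and]
              have h' : ∀ i ∈ insert a s, ∀ x ∈ T (w.1 i), ext g x = ext g' x := by
                intro i hi x hx
                exact hext _ _ _ hg x (mem_biUnion.2 ⟨i, hi, hx⟩)
              constructor
              · intro h i hi
                exact hdet _ _ _ (h' i hi) (h i hi)
              · intro h i hi
                exact hdet _ _ _ (fun x hx => (h' i hi x hx).symm) (h i hi)
            · rw [hsplit, pr_inter hK (hE1 _) ih.1 hdisj, card_insert_of_notMem ha, pow_succ,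
                mul_comm]
              have hTJ : T (w.1 a) ⊆ J := by
                intro x hx
                rw [hJ, mem_biUnion]
                exact ⟨w, hw, mem_biUnion.2 ⟨a, mem_univ _, hx⟩⟩
              exact mul_le_mul ih.2 (hpr1 _ hTJ) (pr_nonneg _) (by positivity)
        have := (key univ).2
        rw [card_univ, Fintype.card_fin] at this
        refine le_trans (pr_mono ?_) this
        intro g hg
        simp only [E, mem_filter, mem_univ, true_and] at hg ⊢
        intro i _
        exact hg i
      choose P hP1 hP2 using fun (β : A) (j : Fin k) => path_count lk k Δ hΔ nb hnb h1 h2 β j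
      obtain ⟨κ, hκ⟩ := product_lll' hK F E (fun w => TV (univ.biUnion fun i => T (w.1 i)))
        (by
          intro w g g' hg
          simp only [E, mem_filter, mem_univ, true_and]
          have h' : ∀ i, ∀ x ∈ T (w.1 i), ext g x = ext g' x := by
            intro i x hx
            exact hext _ _ _ hg x (mem_biUnion.2 ⟨i, mem_univ _, hx⟩)
          constructor
          · intro h i
            exact hdet _ _ _ (h' i) (h i)
          · intro h i
            exact hdet _ _ _ (fun x hx => (h' i x hx).symm) (h i))
        (δ ^ k) ((k : ℝ) ^ 2 * B * (Δ : ℝ) ^ k) (by positivity) hnum2 (by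
          intro w hw
          have h := hprE w hw
          unfold pr at h
          rwa [div_le_iff₀ (card_pos' hK)] at h) (by
          intro w hw
          have hsub : (F.filter (fun w' => ¬ Disjoint (TV (univ.biUnion fun i => T (w.1 i)))
              (TV (univ.biUnion fun i => T (w'.1 i))))).image Subtype.val ⊆
              (univ : Finset (Fin k)).biUnion fun i => (univ : Finset (Fin k)).biUnion fun j =>
                (sh (w.1 i)).biUnion fun β => P β j := by
            intro w' hw'
            rw [mem_image] at hw'
            obtain ⟨w', hw', rfl⟩ := hw'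
            rw [mem_filter] at hw'
            obtain ⟨-, hnd⟩ := hw'
            rw [Finset.not_disjoint_iff] at hnd
            obtain ⟨v, hv, hv'⟩ := hnd
            rw [Finset.mem_subtype, mem_biUnion] at hv hv'
            obtain ⟨i, -, hi⟩ := hv
            obtain ⟨j, -, hj⟩ := hv'
            rw [mem_biUnion]
            refine ⟨i, mem_univ _, ?_⟩
            rw [mem_biUnion]
            refine ⟨j, mem_univ _, ?_⟩
            rw [mem_biUnion]
            refine ⟨w'.1 j, hsh' _ _ ?_, hP2 _ _ _ w'.2.1 rfl⟩
            rw [Finset.not_disjoint_iff]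
            exact ⟨v, hi, hj⟩
          rw [← card_image_of_injective _ Subtype.val_injective]
          have hc : ((univ : Finset (Fin k)).biUnion fun i => (univ : Finset (Fin k)).biUnion
              fun j => (sh (w.1 i)).biUnion fun β => P β j).card ≤ k * (k * (B * Δ ^ k)) := by
            refine (card_biUnion_le_card_mul _ _ (k * (B * Δ ^ k)) ?_).trans (by simp)
            intro i _
            refine (card_biUnion_le_card_mul _ _ (B * Δ ^ k) ?_).trans (by simp)
            intro j _
            refine (card_biUnion_le_card_mul _ _ (Δ ^ k) fun β _ => hP1 β j).trans ?_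
            exact Nat.mul_le_mul_right _ (hsh _)
          have hc' := (card_le_card hsub).trans hc
          calc ((_ : ℕ) : ℝ) ≤ ((k * (k * (B * Δ ^ k)) : ℕ) : ℝ) := by exact_mod_cast hc'
            _ = _ := by push_cast; ring) hnum
      refine ⟨ext κ, fun w hw hbad => hκ w hw ?_⟩
      simp only [E, mem_filter, mem_univ, true_and]
      exact hbad)
  exact ⟨ω, fun w hw hinj hbad => hω ⟨w, hw, hinj⟩ hbad⟩

end Pool.Agent.Lib.MP_1df68a_gt.LM
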