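import Pool.Agent.Lib.MP_1df68a_gt.LM.Stmts29

set_option autoImplicit false

/-! Asymptotic property C from local maps: the group part. -/

namespace Pool.Agent.Lib.MP_1df68a_gt

open Relation

theorem ProperMetric.pmet {X : Type} {d : X → X → ℝ} (hd : ProperMetric d) : PMet d :=
  ⟨hd.symm, hd.self, hd.tri⟩

/-- The action `α` on `Y` is proper on the subgroup generated by `S`. -/
def ActProper {G Y : Type} [Group G] (S : Set G) (dY : Y → Y → ℝ) (α : G →* Equiv.Perm Y)
    (y₀ : Y) : Prop :=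
  ∀ ρ : ℝ, {g : G | g ∈ Subgroup.closure S ∧ dY y₀ (α g y₀) ≤ ρ}.Finite

section

variable {G : Type} [Group G] {d : G → G → ℝ}

theorem dist_one (hdi : ∀ g x y : G, d (g * x) (g * y) = d x y) (x y : G) :
    d x y = d 1 (x⁻¹ * y) := by
  have := hdi x 1 (x⁻¹ * y)
  rw [mul_one, mul_inv_cancel_left] at this
  exact this

theorem bgeo_of_proper (hd : ProperMetric d) (hdi : ∀ g x y : G, d (g * x) (g * y) = d x y) :
    BGeo d := by
  intro r
  refine ⟨{y | d 1 y ≤ r}.ncard, fun x => ?_⟩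
  have h1 : {y | d x y ≤ r} = (fun g => x * g) '' {y | d 1 y ≤ r} := by
    ext y
    constructor
    · intro hy
      refine ⟨x⁻¹ * y, ?_, mul_inv_cancel_left x y⟩
      show d 1 (x⁻¹ * y) ≤ r
      rw [← dist_one hdi]
      exact hy
    · rintro ⟨g, hg, rfl⟩
      show d x (x * g) ≤ r
      rw [dist_one hdi, inv_mul_cancel_left]
      exact hg
  refine ⟨hd.fin x r, ?_⟩
  rw [h1]
  exact Set.ncard_image_le (hd.fin 1 r)

theorem chain_mem_closure (hdi : ∀ g x y : G, d (g * x) (g * y) = d x y) (R : ℝ) {x y : G}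
    (h : ReflTransGen (fun a b => d a b ≤ R) x y) :
    x⁻¹ * y ∈ Subgroup.closure {g : G | d 1 g ≤ R} := by
  induction h with
  | refl => rw [inv_mul_cancel]; exact one_mem _
  | @tail b c _ hbc ih =>
    have h1 : b⁻¹ * c ∈ Subgroup.closure {g : G | d 1 g ≤ R} := by
      refine Subgroup.subset_closure ?_
      show d 1 (b⁻¹ * c) ≤ R
      rw [← dist_one hdi]
      exact hbc
    have h2 := mul_mem ih h1
    have e : x⁻¹ * b * (b⁻¹ * c) = x⁻¹ * c := by group
    rwa [e] at h2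

/-- The orbit map of an isometric action which is proper on the subgroup generated by the
`R`-ball. -/
theorem orbit_map (hd : ProperMetric d) (hdi : ∀ g x y : G, d (g * x) (g * y) = d x y)
    {Y : Type} (dY : Y → Y → ℝ) (α : G →* Equiv.Perm Y) (y₀ : Y)
    (hα : ∀ g x y, dY (α g x) (α g y) = dY x y) (R : ℝ)
    (hp : ActProper {g : G | d 1 g ≤ R} dY α y₀) :
    Born d dY (fun g => α g y₀) ∧ ProperOn d dY (fun g => α g y₀) R := by
  have key : ∀ x y, dY (α x y₀) (α y y₀) = dY y₀ (α (x⁻¹ * y) y₀) := by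
    intro x y
    rw [← hα x y₀ (α (x⁻¹ * y) y₀), ← Equiv.Perm.mul_apply, ← map_mul, mul_inv_cancel_left]
  refine ⟨fun r => ?_, fun ρ => ?_⟩
  · obtain ⟨ρ, hρ⟩ := ((hd.fin 1 r).image (fun g => dY y₀ (α g y₀))).bddAbove
    refine ⟨ρ, fun x y hxy => ?_⟩
    show dY (α x y₀) (α y y₀) ≤ ρ
    rw [key]
    refine hρ ⟨x⁻¹ * y, ?_, rfl⟩
    show d 1 (x⁻¹ * y) ≤ r
    rw [← dist_one hdi]
    exact hxy
  · obtain ⟨D, hD⟩ := ((hp ρ).image (fun g => d 1 g)).bddAbove
    refine ⟨D, fun x y hxy hρ => ?_⟩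
    rw [dist_one hdi]
    refine hD ⟨x⁻¹ * y, ⟨chain_mem_closure hdi R hxy, ?_⟩, rfl⟩
    have h1 : dY (α x y₀) (α y y₀) ≤ ρ := hρ
    rw [key] at h1
    exact h1

/-- Groups with local actions on spaces with asymptotic property C. -/
theorem apc_of_actions (hA : StA) (hd : ProperMetric d)
    (hdi : ∀ g x y : G, d (g * x) (g * y) = d x y)
    (h : ∀ S : Set G, S.Finite → ∃ (Y : Type) (dY : Y → Y → ℝ) (α : G →* Equiv.Perm Y) (y₀ : Y),
      PMet dY ∧ HasAPC dY ∧ (∀ g x y, dY (α g x) (α g y) = dY x y) ∧ ActProper S dY α y₀) :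
    HasAPC d := by
  refine hA G d hd.pmet (bgeo_of_proper hd hdi) fun R _ => ?_
  obtain ⟨Y, dY, α, y₀, h1, h2, h3, h4⟩ := h _ (hd.fin 1 R)
  exact ⟨Y, dY, _, h1, h2, orbit_map hd hdi dY α y₀ h3 R h4⟩

/-- The action of a group on another group through a homomorphism. -/
def mulAct {Q : Type} [Group Q] (π : G →* Q) : G →* Equiv.Perm Q where
  toFun g := Equiv.mulLeft (π g)
  map_one' := by ext x; simp
  map_mul' g h := by ext x; simp

theorem mulAct_apply {Q : Type} [Group Q] (π : G →* Q) (g : G) (x : Q) :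
    mulAct π g x = π g * x := rfl

theorem actProper_mulAct {Q : Type} [Group Q] {dQ : Q → Q → ℝ} (hQ : ProperMetric dQ)
    (π : G →* Q) (S : Set G)
    (hinj : ∀ g ∈ Subgroup.closure S, π g = 1 → g = 1) : ActProper S dQ (mulAct π) 1 := by
  intro ρ
  have h1 : {g : G | g ∈ Subgroup.closure S ∧ dQ 1 (mulAct π g 1) ≤ ρ} ⊆
      π ⁻¹' {q | dQ 1 q ≤ ρ} ∩ Subgroup.closure S := by
    rintro g ⟨hg, hρ⟩
    rw [mulAct_apply, mul_one] at hρ
    exact ⟨hρ, hg⟩
  refine Set.Finite.subset ?_ h1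
  refine Set.Finite.of_finite_image (f := π) ((hQ.fin 1 ρ).subset ?_) ?_
  · rintro _ ⟨g, hg, rfl⟩
    exact hg.1
  · intro a ha b hb hab
    have h2 := hinj (a⁻¹ * b) (mul_mem (inv_mem ha.2) hb.2) (by
      rw [map_mul, map_inv, hab, inv_mul_cancel])
    rwa [inv_mul_eq_one] at h2

/-- Groups which are locally embedded by homomorphisms in groups with asymptotic property C. -/
theorem apc_of_homs (hA : StA) (hd : ProperMetric d)
    (hdi : ∀ g x y : G, d (g * x) (g * y) = d x y)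
    (h : ∀ S : Set G, S.Finite → ∃ (Q : Type) (_ : Group Q) (dQ : Q → Q → ℝ) (π : G →* Q),
      ProperMetric dQ ∧ (∀ g x y : Q, dQ (g * x) (g * y) = dQ x y) ∧ HasAPC dQ ∧
      ∀ g ∈ Subgroup.closure S, π g = 1 → g = 1) :
    HasAPC d := by
  refine apc_of_actions hA hd hdi fun S hS => ?_
  obtain ⟨Q, _, dQ, π, h1, h2, h3, h4⟩ := h S hS
  exact ⟨Q, dQ, mulAct π, 1, h1.pmet, h3, fun g x y => h2 (π g) x y, actProper_mulAct h1 π S h4⟩

/-- Groups which have many retracts with asymptotic property C. -/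
theorem apc_of_retracts (hA : StA) (hd : ProperMetric d)
    (hdi : ∀ g x y : G, d (g * x) (g * y) = d x y)
    (h : ∀ S : Set G, S.Finite → ∃ (Q : Type) (_ : Group Q) (dQ : Q → Q → ℝ) (π : G →* Q)
      (σ : Q →* G), ProperMetric dQ ∧ (∀ g x y : Q, dQ (g * x) (g * y) = dQ x y) ∧ HasAPC dQ ∧
      (∀ q, π (σ q) = q) ∧ ∀ s ∈ S, s ∈ σ.range) :
    HasAPC d := by
  refine apc_of_homs hA hd hdi fun S hS => ?_
  obtain ⟨Q, hQ, dQ, π, σ, h1, h2, h3, h4, h5⟩ := h S hS
  refine ⟨Q, hQ, dQ, π, h1, h2, h3, fun g hg hπ => ?_⟩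
  have h6 : Subgroup.closure S ≤ σ.range := (Subgroup.closure_le _).2 h5
  obtain ⟨q, rfl⟩ := h6 hg
  rw [h4] at hπ
  rw [hπ, map_one]

end

open Monoid Monoid.PushoutI

/-- Amalgamated products: local actions of the two factors which agree on the common subgroup. -/
theorem amalgam_apc (hA : StA) (G : Bool → Type) [∀ i, Group (G i)] (C : Type) [Group C]
    (φ : ∀ i, C →* G i)
    (h : ∀ S : Set (PushoutI φ), S.Finite →
      ∃ (Y : Type) (dY : Y → Y → ℝ) (a : ∀ i, G i →* Equiv.Perm Y) (y₀ : Y),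
      PMet dY ∧ HasAPC dY ∧ (∀ i (g : G i) (x y : Y), dY (a i g x) (a i g y) = dY x y) ∧
      ∃ hac : ∀ c : C, a false (φ false c) = a true (φ true c),
        ActProper S dY (PushoutI.lift a ((a true).comp (φ true)) (by
          intro i
          ext c x
          cases i with
          | false => simp [hac]
          | true => rfl)) y₀)
    (d : PushoutI φ → PushoutI φ → ℝ) (hd : ProperMetric d)
    (hdi : ∀ g x y : PushoutI φ, d (g * x) (g * y) = d x y) : HasAPC d := by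
  refine apc_of_actions hA hd hdi fun S hS => ?_
  obtain ⟨Y, dY, a, y₀, h1, h2, h3, hac, h4⟩ := h S hS
  refine ⟨Y, dY, _, y₀, h1, h2, ?_, h4⟩
  intro g
  induction g using PushoutI.induction_on with
  | of i g => intro x y; simpa using h3 i g x y
  | base c => intro x y; simpa using h3 true (φ true c) x y
  | mul g g' h h' => intro x y; rw [map_mul, Equiv.Perm.mul_apply, Equiv.Perm.mul_apply, h, h']

end Pool.Agent.Lib.MP_1df68a_gt
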