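import Pool.Agent.Lib.MP_1df68a_gt.LM.StA29
import Pool.Agent.Lib.MP_1df68a_gt.LM.Group22
import Pool.Agent.Lib.MP_1df68a_gt.Corollaries

set_option autoImplicit false

/-! Amalgamated products with many compatible endomorphisms of the factors. -/

namespace Pool.Agent.Lib.MP_1df68a_gt

open Monoid Monoid.PushoutI

/-- A countable group has a left-invariant metric with finite balls. -/
theorem exists_properMetric (Γ : Type) [Group Γ] [Countable Γ] :
    ∃ d : Γ → Γ → ℝ, ProperMetric d ∧ ∀ g x y : Γ, d (g * x) (g * y) = d x y := by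
  obtain ⟨w, hw⟩ := exists_adm (Set.univ : Set Γ) (fun _ _ => Set.mem_univ _)
    (fun g => ⟨[g], fun _ _ => Set.mem_univ _, by simp⟩)
  refine ⟨fun x y => (wd Set.univ w x y : ℝ), ⟨?_, ?_, ?_, ?_, ?_⟩, ?_⟩
  · intro x y
    exact_mod_cast hw.isPM.symm x y
  · intro x
    exact_mod_cast hw.isPM.self x
  · intro x y hxy
    have h0 : wd Set.univ w x y = 0 := by exact_mod_cast hxy
    obtain ⟨l, -, hl, hs⟩ := hw.exists_list (x⁻¹ * y)
    have h1 : (l.map w).sum = 0 := by rw [hs]; exact h0
    cases l with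
    | nil =>
      rw [List.prod_nil] at hl
      exact (inv_mul_eq_one.1 hl.symm)
    | cons a l =>
      have := hw.pos a
      rw [List.map_cons, List.sum_cons] at h1
      omega
  · intro x y z
    exact_mod_cast hw.isPM.tri x y z
  · intro x r
    obtain ⟨n, hn⟩ := exists_nat_ge r
    refine ((hw.finite_ball n).image (fun g => x * g)).subset ?_
    intro y hy
    refine ⟨x⁻¹ * y, ?_, mul_inv_cancel_left x y⟩
    have h1 : ((wd Set.univ w x y : ℕ) : ℝ) ≤ n := le_trans hy hn
    exact_mod_cast h1
  · intro g x y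
    have : wd Set.univ w (g * x) (g * y) = wd Set.univ w x y := by
      unfold wd
      congr 1
      group
    show ((wd Set.univ w (g * x) (g * y) : ℕ) : ℝ) = ((wd Set.univ w x y : ℕ) : ℝ)
    rw [this]

section

variable {G : Bool → Type} [∀ i, Group (G i)] {C : Type} [Group C] (φ : ∀ i, C →* G i)

/-- The amalgam over the image of an endomorphism of `C`. -/
abbrev AmalgOver (t : C →* C) : Type := PushoutI fun i => (φ i).comp t.range.subtype

variable {φ}

theorem countable_pushout {G : Bool → Type} [∀ i, Group (G i)] [∀ i, Countable (G i)] {D : Type}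
    [Group D] (ψ : ∀ i, D →* G i) : Countable (PushoutI ψ) := by
  have hsurj : Function.Surjective (fun l : List (Σ i, G i) =>
      (l.map fun x => (of x.1 : G x.1 →* PushoutI ψ) x.2).prod) := by
    intro x
    induction x using PushoutI.induction_on with
    | of i g => exact ⟨[⟨i, g⟩], by simp⟩
    | base c => exact ⟨[⟨true, ψ true c⟩], by simp [of_apply_eq_base]⟩
    | mul x y hx hy =>
      obtain ⟨a, rfl⟩ := hx
      obtain ⟨b, rfl⟩ := hy
      exact ⟨a ++ b, by simp⟩
  exact hsurj.countable

theorem gen_finite (x : PushoutI φ) : ∃ A : ∀ i, Set (G i), (∀ i, (A i).Finite) ∧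
    x ∈ Subgroup.closure (⋃ i, (of i : G i →* PushoutI φ) '' A i) := by
  classical
  have hone : ∀ i (g : G i), ∃ A : ∀ i, Set (G i), (∀ i, (A i).Finite) ∧
      (of i : G i →* PushoutI φ) g ∈ Subgroup.closure (⋃ i, (of i : G i →* PushoutI φ) '' A i) := by
    intro i g
    refine ⟨fun j => {x | ∃ h : i = j, x = h ▸ g}, ?_, ?_⟩
    · intro j
      by_cases h : i = j
      · subst h
        refine (Set.finite_singleton g).subset ?_
        rintro x ⟨_, rfl⟩
        rfl
      · refine Set.finite_empty.subset ?_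
        rintro x ⟨h', _⟩
        exact h h'
    · exact Subgroup.subset_closure (Set.mem_iUnion.2 ⟨i, g, ⟨rfl, rfl⟩, rfl⟩)
  induction x using PushoutI.induction_on with
  | of i g => exact hone i g
  | base c =>
    have h := hone true (φ true c)
    rwa [of_apply_eq_base] at h
  | mul x y hx hy =>
    obtain ⟨A, hA, hxA⟩ := hx
    obtain ⟨B, hB, hyB⟩ := hy
    refine ⟨fun i => A i ∪ B i, fun i => (hA i).union (hB i), mul_mem ?_ ?_⟩
    · refine Subgroup.closure_mono ?_ hxA
      exact Set.iUnion_mono fun i => Set.image_mono Set.subset_union_left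
    · refine Subgroup.closure_mono ?_ hyB
      exact Set.iUnion_mono fun i => Set.image_mono Set.subset_union_right

theorem gen_finite_set (S : Set (PushoutI φ)) (hS : S.Finite) :
    ∃ A : ∀ i, Set (G i), (∀ i, (A i).Finite) ∧
      S ⊆ Subgroup.closure (⋃ i, (of i : G i →* PushoutI φ) '' A i) := by
  choose A hA hxA using fun x : PushoutI φ => gen_finite x
  refine ⟨fun i => ⋃ x ∈ S, A x i, fun i => hS.biUnion fun x _ => hA x i, fun x hx => ?_⟩
  refine Subgroup.closure_mono ?_ (hxA x)
  refine Set.iUnion_mono fun i => Set.image_mono ?_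
  exact Set.subset_biUnion_of_mem (u := fun x => A x i) hx

/-- Amalgams with many compatible endomorphisms of the factors, general form. -/
theorem amalgam_endo
    (h : ∀ A : ∀ i, Set (G i), (∀ i, (A i).Finite) → ∃ (p : ∀ i, G i →* G i) (t : C →* C),
      (∀ i c, p i (φ i c) = φ i (t c)) ∧ (∀ i, ∀ a ∈ A i, p i a = a) ∧
      ∃ d : AmalgOver φ t → AmalgOver φ t → ℝ, ProperMetric d ∧
        (∀ g x y : AmalgOver φ t, d (g * x) (g * y) = d x y) ∧ HasAPC d)
    (d : PushoutI φ → PushoutI φ → ℝ) (hd : ProperMetric d)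
    (hdi : ∀ g x y : PushoutI φ, d (g * x) (g * y) = d x y) : HasAPC d := by
  refine apc_of_homs stA hd hdi fun S hS => ?_
  obtain ⟨A, hA, hSA⟩ := gen_finite_set S hS
  obtain ⟨p, t, hpt, hpA, dQ, hQ, hQi, hQC⟩ := h A hA
  let π : PushoutI φ →* AmalgOver φ t :=
    PushoutI.lift (fun i => (of i : G i →* AmalgOver φ t).comp (p i))
      ((base fun i => (φ i).comp t.range.subtype).comp t.rangeRestrict) (by
        intro i
        ext c
        show (of i : G i →* AmalgOver φ t) (p i (φ i c)) =
          base (fun i => (φ i).comp t.range.subtype) (t.rangeRestrict c)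
        rw [hpt, ← of_apply_eq_base (fun i => (φ i).comp t.range.subtype) i]
        rfl)
  let β : AmalgOver φ t →* PushoutI φ :=
    PushoutI.lift (fun i => (of i : G i →* PushoutI φ)) ((base φ).comp t.range.subtype) (by
      intro i
      ext c
      exact of_apply_eq_base φ i c.1)
  have hβπ : ∀ i (g : G i), β (π (of i g)) = of i (p i g) := by
    intro i g
    have h1 : π (of i g) = of i (p i g) := by
      show PushoutI.lift _ _ _ (of i g) = _
      rw [PushoutI.lift_of]
      rfl
    rw [h1]
    show PushoutI.lift _ _ _ (of i (p i g)) = _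
    rw [PushoutI.lift_of]
  refine ⟨AmalgOver φ t, inferInstance, dQ, π, hQ, hQi, hQC, fun g hg hπ => ?_⟩
  have hle : Subgroup.closure S ≤ (β.comp π).eqLocus (MonoidHom.id _) := by
    rw [Subgroup.closure_le]
    intro s hs
    have h1 : Subgroup.closure (⋃ i, (of i : G i →* PushoutI φ) '' A i) ≤
        (β.comp π).eqLocus (MonoidHom.id _) := by
      rw [Subgroup.closure_le]
      intro x hx
      obtain ⟨i, a, ha, rfl⟩ := Set.mem_iUnion.1 hx
      show β (π (of i a)) = of i a
      rw [hβπ, hpA i a ha]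
    exact h1 (hSA hs)
  have h2 : β (π g) = g := hle hg
  rw [hπ, map_one] at h2
  exact h2.symm

/-- Amalgams with many compatible endomorphisms of the factors; the images of the common subgroup
have finite asymptotic dimension. -/
theorem amalgam_endo_fin (hφ : ∀ i, Function.Injective (φ i))
    (hG : ∀ i, ∃ d : G i → G i → ℝ, ProperMetric d ∧ (∀ g x y : G i, d (g * x) (g * y) = d x y) ∧
      HasAPC d)
    (h : ∀ A : ∀ i, Set (G i), (∀ i, (A i).Finite) → ∃ (p : ∀ i, G i →* G i) (t : C →* C),
      (∀ i c, p i (φ i c) = φ i (t c)) ∧ (∀ i, ∀ a ∈ A i, p i a = a) ∧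
      ∃ d : t.range → t.range → ℝ, ProperMetric d ∧
        (∀ g x y : t.range, d (g * x) (g * y) = d x y) ∧ FinAsdimOn d Set.univ)
    (d : PushoutI φ → PushoutI φ → ℝ) (hd : ProperMetric d)
    (hdi : ∀ g x y : PushoutI φ, d (g * x) (g * y) = d x y) : HasAPC d := by
  refine amalgam_endo (fun A hA => ?_) d hd hdi
  obtain ⟨p, t, h1, h2, h3⟩ := h A hA
  refine ⟨p, t, h1, h2, ?_⟩
  have hinj : ∀ i, Function.Injective ((φ i).comp t.range.subtype) := fun i =>
    (hφ i).comp Subtype.val_injective
  have hcG : ∀ i, Countable (G i) := by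
    intro i
    obtain ⟨δ, hδ, -⟩ := hG i
    rw [← Set.countable_univ_iff]
    have : (Set.univ : Set (G i)) = ⋃ n : ℕ, {x | δ 1 x ≤ n} := by
      symm
      rw [Set.eq_univ_iff_forall]
      intro x
      obtain ⟨n, hn⟩ := exists_nat_ge (δ 1 x)
      exact Set.mem_iUnion.2 ⟨n, hn⟩
    rw [this]
    exact Set.countable_iUnion fun n => (hδ.fin 1 n).countable
  have hcount : Countable (AmalgOver φ t) := countable_pushout _
  obtain ⟨dQ, hQ, hQi⟩ := exists_properMetric (AmalgOver φ t)
  exact ⟨dQ, hQ, hQi, finite_asdim G t.range _ hinj hG h3 dQ hQ hQi⟩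

end

end Pool.Agent.Lib.MP_1df68a_gt
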