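import Pool.Agent.Lib.MP_1df68a_gt.Defs

set_option autoImplicit false

/-! Definitions used in the statement of `Results/MP_1df68a_gt/LocalEndomorphisms.lean`. -/

namespace Pool.Agent.Lib.MP_1df68a_gt

/-- The group `Γ` has asymptotic property C (for some left-invariant metric with finite balls). -/
def APCGroup (Γ : Type) [Group Γ] : Prop :=
  ∃ d : Γ → Γ → ℝ, ProperMetric d ∧ (∀ g x y : Γ, d (g * x) (g * y) = d x y) ∧ HasAPC d

/-- The group `Γ` has finite asymptotic dimension (for some left-invariant metric with finite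
balls). -/
def FinAsdimGroup (Γ : Type) [Group Γ] : Prop :=
  ∃ d : Γ → Γ → ℝ, ProperMetric d ∧ (∀ g x y : Γ, d (g * x) (g * y) = d x y) ∧
    FinAsdimOn d Set.univ

/-- The stabiliser of the point `y₀` for the action `α` of `Γ` on `Y`. -/
def stab {Γ Y : Type} [Group Γ] (α : Γ →* Equiv.Perm Y) (y₀ : Y) : Subgroup Γ where
  carrier := {g | α g y₀ = y₀}
  one_mem' := by
    show α 1 y₀ = y₀
    rw [map_one]
    rfl
  mul_mem' := by
    intro g h hg hh
    show α (g * h) y₀ = y₀
    rw [map_mul, Equiv.Perm.mul_apply, show α h y₀ = y₀ from hh]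
    exact hg
  inv_mem' := by
    intro g hg
    show α g⁻¹ y₀ = y₀
    rw [map_inv, Equiv.Perm.inv_eq_iff_eq]
    exact (show α g y₀ = y₀ from hg).symm

theorem act_eq {G : Bool → Type} [∀ i, Group (G i)] {C : Type} [Group C] (φ : ∀ i, C →* G i)
    {Y : Type} (a : ∀ i, G i →* Equiv.Perm Y)
    (hac : ∀ c : C, a false (φ false c) = a true (φ true c)) (i : Bool) (c : C) :
    a i (φ i c) = a true (φ true c) := by
  cases i with
  | false => exact hac c
  | true => rfl

theorem smap_mem {G : Bool → Type} [∀ i, Group (G i)] {C : Type} [Group C] (φ : ∀ i, C →* G i)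
    {Y : Type} (a : ∀ i, G i →* Equiv.Perm Y) (y₀ : Y)
    (hac : ∀ c : C, a false (φ false c) = a true (φ true c)) (i : Bool)
    (c : stab ((a true).comp (φ true)) y₀) : φ i (c : C) ∈ stab (a i) y₀ := by
  show a i (φ i (c : C)) y₀ = y₀
  rw [act_eq φ a hac]
  exact c.2

/-- The embedding of the stabiliser `C₀` of `y₀` in `C` in the stabiliser of `y₀` in `G i`, the
restriction of `φ i`. -/
def smap {G : Bool → Type} [∀ i, Group (G i)] {C : Type} [Group C] (φ : ∀ i, C →* G i)
    {Y : Type} (a : ∀ i, G i →* Equiv.Perm Y) (y₀ : Y)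
    (hac : ∀ c : C, a false (φ false c) = a true (φ true c)) (i : Bool) :
    stab ((a true).comp (φ true)) y₀ →* stab (a i) y₀ :=
  ((φ i).comp (stab ((a true).comp (φ true)) y₀).subtype).codRestrict (stab (a i) y₀)
    (smap_mem φ a y₀ hac i)

/-- The groups `H = G false`, `K = G true` with the common subgroup `C` have many compatible
endomorphisms: for all finite sets `A i ⊆ G i` there are endomorphisms `p false` of `H`, `p true`
of `K` and `t` of `C` such that `p false` and `p true` restrict to `t` on `C`, `p i` is the identity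
on `A i`, and the image of `t` has finite asymptotic dimension. -/
def LocalEndos {G : Bool → Type} [∀ i, Group (G i)] {C : Type} [Group C] (φ : ∀ i, C →* G i) :
    Prop :=
  ∀ A : ∀ i, Set (G i), (∀ i, (A i).Finite) → ∃ (p : ∀ i, G i →* G i) (t : C →* C),
    (∀ i c, p i (φ i c) = φ i (t c)) ∧ (∀ i, ∀ x ∈ A i, p i x = x) ∧ FinAsdimGroup t.range

end Pool.Agent.Lib.MP_1df68a_gt
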