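import Pool.Agent.Lib.MP_1df68a_gt.LM.Endo29
import Pool.Agent.Lib.MP_1df68a_gt.LM.Stab22

set_option autoImplicit false

/-! Groups acting on spaces with asymptotic property C, and the stabilisers in an amalgam. -/

namespace Pool.Agent.Lib.MP_1df68a_gt

open Relation

theorem mem_stab {Γ Y : Type} [Group Γ] (α : Γ →* Equiv.Perm Y) (y₀ : Y) (g : Γ) :
    g ∈ stab α y₀ ↔ α g y₀ = y₀ := Iff.rfl

theorem APC_comap {X Y : Type} {d : Y → Y → ℝ} (hd : HasAPC d) (f : X → Y) :
    HasAPC (fun x y => d (f x) (f y)) := by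
  intro R hR
  obtain ⟨n, U, h1, h2, h3⟩ := hd R hR
  refine ⟨n, fun k => {Z | ∃ V ∈ U k, Z = f ⁻¹' V}, ?_, ?_, ?_⟩
  · intro k hk
    obtain ⟨B, hB⟩ := h1 k hk
    refine ⟨B, ?_⟩
    rintro _ ⟨V, hV, rfl⟩ x hx y hy
    exact hB V hV _ hx _ hy
  · rintro k hk _ ⟨V, hV, rfl⟩ _ ⟨W, hW, rfl⟩ hne x hx y hy
    exact h2 k hk V hV W hW (fun h => hne (by rw [h])) _ hx _ hy
  · intro x
    obtain ⟨k, hk, V, hV, hx⟩ := h3 (f x)
    exact ⟨k, hk, _, ⟨V, hV, rfl⟩, hx⟩

theorem proper_comap {X Y : Type} {d : Y → Y → ℝ} (hd : ProperMetric d) (f : X → Y)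
    (hf : Function.Injective f) : ProperMetric (fun x y => d (f x) (f y)) :=
  ⟨fun _ _ => hd.symm _ _, fun _ => hd.self _, fun _ _ h => hf (hd.sep _ _ h),
    fun _ _ _ => hd.tri _ _ _, fun x r => (hd.fin (f x) r).preimage hf.injOn⟩

theorem countable_of_pm {X : Type} [Nonempty X] {d : X → X → ℝ} (hd : ProperMetric d) :
    Countable X := by
  rw [← Set.countable_univ_iff]
  have x₀ : X := Classical.arbitrary X
  have : (Set.univ : Set X) = ⋃ n : ℕ, {x | d x₀ x ≤ n} := by
    symm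
    rw [Set.eq_univ_iff_forall]
    intro x
    obtain ⟨n, hn⟩ := exists_nat_ge (d x₀ x)
    exact Set.mem_iUnion.2 ⟨n, hn⟩
  rw [this]
  exact Set.countable_iUnion fun n => (hd.fin x₀ n).countable

/-- Isometric actions on spaces with asymptotic property C whose stabilisers have asymptotic
property C. -/
theorem apc_of_stab {Γ : Type} [Group Γ] {d : Γ → Γ → ℝ} (hd : ProperMetric d)
    (hdi : ∀ g x y, d (g * x) (g * y) = d x y) {Y : Type} (dY : Y → Y → ℝ)
    (hY : ProperMetric dY) (hYC : HasAPC dY) (α : Γ →* Equiv.Perm Y)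
    (hα : ∀ g x y, dY (α g x) (α g y) = dY x y) (y₀ : Y)
    (hst : ∃ δ : stab α y₀ → stab α y₀ → ℝ, ProperMetric δ ∧
      (∀ g x y : stab α y₀, δ (g * x) (g * y) = δ x y) ∧ HasAPC δ) :
    HasAPC d := by
  intro R hR
  have hcount : Countable Γ := countable_of_pm hd
  obtain ⟨w, hw⟩ := exists_adm (Set.univ : Set Γ) (fun _ _ => trivial)
    (fun g => ⟨[g], by simp, by simp⟩)
  have hcomm : ∀ s ∈ (Set.univ : Set Γ), ∃ F : Set Γ, F.Finite ∧ ∀ n ∈ (⊥ : Subgroup Γ),
      ∃ f ∈ F, f⁻¹ * (n * s) ∈ (⊥ : Subgroup Γ) := by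
    intro s _
    refine ⟨{s}, Set.finite_singleton s, fun n hn => ⟨s, rfl, ?_⟩⟩
    rw [Subgroup.mem_bot] at hn ⊢
    rw [hn, one_mul, inv_mul_cancel]
  have hNS : ∀ n ∈ (⊥ : Subgroup Γ), n ∈ (Set.univ : Set Γ) := fun _ _ => trivial
  have hw0 := adm0_w0 (N := (⊥ : Subgroup Γ)) hw
  obtain ⟨δ, hδ, hδi, hδC⟩ := hst
  have hfib : ∀ r : ℕ → ℕ, ∃ n D, ∀ q : Y, ∃ A : ℕ → Set Γ,
      (∀ x, α x y₀ = q → ∃ k < n, x ∈ A k) ∧
      ∀ k < n, Bd (wd Set.univ (w0 w (⊥ : Subgroup Γ))) (A k) (r k) D := by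
    intro r
    have hb : ∀ k, ∃ ρ : ℝ, 0 < ρ ∧ ∀ g : stab α y₀,
        len Set.univ (w0 w (⊥ : Subgroup Γ)) (g : Γ) ≤ r k → δ 1 g ≤ ρ := by
      intro k
      obtain ⟨F, hF, hFr⟩ := finite_ball0 (N := (⊥ : Subgroup Γ)) hw hcomm (r k)
      have hf : {g : stab α y₀ | len Set.univ (w0 w (⊥ : Subgroup Γ)) (g : Γ) ≤ r k}.Finite := by
        refine (hF.preimage Subtype.val_injective.injOn).subset ?_
        intro g hg
        obtain ⟨f, hf, hfg⟩ := hFr _ hg
        rw [Subgroup.mem_bot, inv_mul_eq_one] at hfg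
        show (g : Γ) ∈ F
        rw [← hfg]
        exact hf
      obtain ⟨ρ, hρ⟩ := (hf.image (fun g => δ 1 g)).bddAbove
      exact ⟨max ρ 1, by positivity, fun g hg => (hρ ⟨g, hg, rfl⟩).trans (le_max_left _ _)⟩
    choose ρ hρ0 hρ using hb
    obtain ⟨n, U, hU1, hU2, hU3⟩ := hδC ρ hρ0
    obtain ⟨D, hD⟩ := coarse_of_metric (S := Set.univ) (w := w0 w (⊥ : Subgroup Γ))
      (stab α y₀).subtype δ hδi (hδ.fin 1) n U r ρ (fun k _ => hρ k) hU1 hU2
    refine ⟨n, D, fun q => ?_⟩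
    by_cases hq : ∃ x, α x y₀ = q
    · obtain ⟨x₀, rfl⟩ := hq
      refine ⟨fun k => {x | x₀⁻¹ * x ∈ (stab α y₀).subtype '' ⋃₀ U k}, ?_, fun k hk =>
        (hD k hk).translate wd_inv x₀⟩
      intro x hx
      have hx' : x₀⁻¹ * x ∈ stab α y₀ := by
        rw [mem_stab, map_mul, map_inv, Equiv.Perm.mul_apply, hx, Equiv.Perm.inv_eq_iff_eq]
      obtain ⟨k, hk, V, hV, hxV⟩ := hU3 ⟨_, hx'⟩
      exact ⟨k, hk, ⟨_, hx'⟩, ⟨V, hV, hxV⟩, rfl⟩
    · refine ⟨fun _ => ∅, fun x hx => absurd ⟨x, hx⟩ hq, fun k _ =>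
        (bd_empty hw0.isPM _ _).mono subset_rfl le_rfl le_rfl⟩
  have hbase := action_fibration (N := (⊥ : Subgroup Γ)) hw hcomm α y₀
    (fun n hn => by rw [Subgroup.mem_bot] at hn; rw [hn, map_one]; rfl) dY hY.self hY.symm hY.tri
    hα (hY.fin y₀) hYC hfib
  have hNcov : ∀ r : ℕ → ℕ, ∃ n D, ∃ A : ℕ → Set Γ,
      (∀ x ∈ (⊥ : Subgroup Γ), ∃ k < n, x ∈ A k) ∧
      ∀ k < n, Bd (wd Set.univ w) (A k) (r k) D := by
    intro r
    refine ⟨1, 0, fun _ => {1}, ?_, ?_⟩
    · intro x hx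
      rw [Subgroup.mem_bot] at hx
      exact ⟨0, Nat.one_pos, hx⟩
    · intro k _ x y hxy
      rcases hxy.cases_head with h | ⟨c, hc, _⟩
      · subst h
        rw [hw.isPM.self]
      · have hx : x = 1 := hc.1
        have hy : y = 1 := by
          rcases ReflTransGen.cases_tail hxy with h' | ⟨c', _, h'⟩
          · rw [h', hx]
          · exact h'.2.1
        rw [hx, hy, hw.isPM.self]
  choose r hr using fun k =>
    exists_bound_len (S := Set.univ) (w := w) (fun g : Γ => g) d (hd.fin 1) (R k)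
  obtain ⟨n, D, A, hcov, hA⟩ := coset_fibration hw hNS hcomm hbase hNcov r
  obtain ⟨U, hU1, hU2, hU3⟩ := metric_of_coarse hw d hdi n D A r R
    (fun k _ => hr k) hA hcov
  exact ⟨n, U, hU1, hU2, hU3⟩

open Monoid Monoid.PushoutI

section

variable {G : Bool → Type} [∀ i, Group (G i)] {C : Type} [Group C] (φ : ∀ i, C →* G i)
  {Y : Type} (a : ∀ i, G i →* Equiv.Perm Y) (y₀ : Y)
  (hac : ∀ c : C, a false (φ false c) = a true (φ true c))

/-- The action of the amalgam. -/
noncomputable def pact : PushoutI φ →* Equiv.Perm Y :=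
  PushoutI.lift a ((a true).comp (φ true)) (by
    intro i
    ext c x
    cases i with
    | false => simp [hac]
    | true => rfl)

theorem pact_of (i : Bool) (g : G i) : pact φ a hac (of i g) = a i g := by
  unfold pact
  rw [lift_of]

theorem pact_base (c : C) : pact φ a hac (base φ c) = a true (φ true c) := by
  rw [← of_apply_eq_base φ true, pact_of]

theorem smap_coe (i : Bool) (c : stab ((a true).comp (φ true)) y₀) :
    ((smap φ a y₀ hac i c : stab (a i) y₀) : G i) = φ i c := rfl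

theorem smap_injective (hφ : ∀ i, Function.Injective (φ i)) (i : Bool) :
    Function.Injective (smap φ a y₀ hac i) := by
  intro x y hxy
  apply Subtype.ext
  apply hφ i
  rw [← smap_coe φ a y₀ hac, ← smap_coe φ a y₀ hac, hxy]

/-- The letters of the amalgam of the stabilisers. -/
noncomputable def ofS (i : Bool) : stab (a i) y₀ →* PushoutI (smap φ a y₀ hac) :=
  of (G := fun i => stab (a i) y₀) (φ := smap φ a y₀ hac) i

/-- The map of the amalgam of the stabilisers. -/
noncomputable def kap : PushoutI (smap φ a y₀ hac) →* PushoutI φ :=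
  PushoutI.lift (fun i => (of i).comp (stab (a i) y₀).subtype)
    ((base φ).comp (stab ((a true).comp (φ true)) y₀).subtype) (by
      intro i
      ext c
      exact of_apply_eq_base φ i (c : C))

theorem kap_of (i : Bool) (g : stab (a i) y₀) :
    kap φ a y₀ hac (ofS φ a y₀ hac i g) = of i (g : G i) :=
  lift_of (G := fun i => stab (a i) y₀) (φ := smap φ a y₀ hac) _ _ _ g

theorem kap_base (c : stab ((a true).comp (φ true)) y₀) :
    kap φ a y₀ hac (base (smap φ a y₀ hac) c) = base φ (c : C) := by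
  have h1 := kap_of φ a y₀ hac true (smap φ a y₀ hac true c)
  have h2 : ofS φ a y₀ hac true (smap φ a y₀ hac true c) = base (smap φ a y₀ hac) c :=
    of_apply_eq_base (smap φ a y₀ hac) true c
  rw [h2] at h1
  rw [h1, smap_coe, of_apply_eq_base]

theorem kap_letter (hφ : ∀ i, Function.Injective (φ i)) (j : Bool)
    (x : PushoutI (smap φ a y₀ hac)) (hx : x ∈ (ofS φ a y₀ hac j).range)
    (hxC : x ∉ (base (smap φ a y₀ hac)).range) :
    kap φ a y₀ hac x ∈ (of j : G j →* PushoutI φ).range ∧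
      kap φ a y₀ hac x ∉ (base φ).range := by
  obtain ⟨g, rfl⟩ := hx
  rw [kap_of]
  refine ⟨⟨_, rfl⟩, ?_⟩
  rintro ⟨c, hc⟩
  rw [← of_apply_eq_base φ j] at hc
  have h1 := of_injective hφ j hc
  have h2 : a true (φ true c) y₀ = y₀ := by
    rw [← act_eq φ a hac j c, h1]
    exact g.2
  apply hxC
  refine ⟨⟨c, h2⟩, ?_⟩
  rw [← of_apply_eq_base (smap φ a y₀ hac) j]
  show ofS φ a y₀ hac j _ = ofS φ a y₀ hac j g
  congr 1
  apply Subtype.ext
  exact h1

theorem kap_RW (hφ : ∀ i, Function.Injective (φ i)) : ∀ (n : ℕ) (j : Bool)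
    (x : PushoutI (smap φ a y₀ hac)),
    x ∈ RW (fun i => (ofS φ a y₀ hac i).range) (base (smap φ a y₀ hac)).range n j →
    kap φ a y₀ hac x ∈ RW (fun i => (of i : G i →* PushoutI φ).range) (base φ).range n j := by
  intro n
  induction n with
  | zero =>
    rintro j x ⟨hx, hxC⟩
    exact kap_letter φ a y₀ hac hφ j x hx hxC
  | succ n ih =>
    rintro j x ⟨s, hs, hsC, u, hu, rfl⟩
    obtain ⟨h1, h2⟩ := kap_letter φ a y₀ hac hφ j s hs hsC
    exact ⟨_, h1, h2, _, ih _ u hu, map_mul _ _ _⟩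

theorem kap_injective (hφ : ∀ i, Function.Injective (φ i)) :
    Function.Injective (kap φ a y₀ hac) := by
  rw [injective_iff_map_eq_one]
  intro x hx
  have hψ := smap_injective φ a y₀ hac hφ
  rcases (pushAmalg (φ := smap φ a y₀ hac) hψ).a1 x with ⟨c, rfl⟩ | ⟨j, hj⟩
  · have h1 : base φ (c : C) = 1 := by rw [← kap_base φ a y₀ hac, hx]
    have h2 : (c : C) = 1 := base_injective hφ (by rw [h1, map_one])
    have h3 : c = 1 := Subtype.ext h2
    rw [h3, map_one]
  · exfalso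
    obtain ⟨n, hn⟩ := Set.mem_iUnion.1 hj
    have h1 := kap_RW φ a y₀ hac hφ n j x hn
    have h2 : kap φ a y₀ hac x ∈ (pushAmalg hφ).side j := Set.mem_iUnion.2 ⟨n, h1⟩
    refine (pushAmalg hφ).a2 j _ h2 ?_
    rw [hx]
    exact one_mem _

theorem kap_stab (q : PushoutI (smap φ a y₀ hac)) :
    pact φ a hac (kap φ a y₀ hac q) y₀ = y₀ := by
  have h : ∀ q : PushoutI (smap φ a y₀ hac),
      kap φ a y₀ hac q ∈ stab (pact φ a hac) y₀ := by
    intro q
    induction q using PushoutI.induction_on with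
    | of i g =>
      have h1 := kap_of φ a y₀ hac i g
      show kap φ a y₀ hac (ofS φ a y₀ hac i g) ∈ _
      rw [h1, mem_stab, pact_of]
      exact g.2
    | base c =>
      rw [kap_base, mem_stab, pact_base]
      exact c.2
    | mul x y hx hy =>
      rw [map_mul]
      exact mul_mem hx hy
  exact h q

theorem kap_range (htr : ∀ i (g : G i), ∃ c : C, a i g y₀ = a i (φ i c) y₀)
    (g : PushoutI φ) (hg : g ∈ stab (pact φ a hac) y₀) : g ∈ (kap φ a y₀ hac).range := by
  have hstep : ∀ i (x : G i), ∃ (h : stab (a i) y₀) (c : C), x = (h : G i) * φ i c := by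
    intro i x
    obtain ⟨c, hc⟩ := htr i x⁻¹
    refine ⟨⟨x * φ i c, ?_⟩, c⁻¹, ?_⟩
    · show a i (x * φ i c) y₀ = y₀
      rw [map_mul, Equiv.Perm.mul_apply, ← hc, ← Equiv.Perm.mul_apply, ← map_mul,
        mul_inv_cancel, map_one]
      rfl
    · show x = x * φ i c * φ i c⁻¹
      rw [map_inv, mul_inv_cancel_right]
  have hlist : ∀ l : List (PushoutI φ), (∀ s ∈ l, ∃ i, s ∈ (of i : G i →* PushoutI φ).range) →
      ∀ p ∈ (kap φ a y₀ hac).range, ∀ c : C, ∃ p' ∈ (kap φ a y₀ hac).range, ∃ c' : C,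
        p * base φ c * l.prod = p' * base φ c' := by
    intro l
    induction l with
    | nil =>
      intro _ p hp c
      exact ⟨p, hp, c, by rw [List.prod_nil, mul_one]⟩
    | cons s l ih =>
      intro hl p hp c
      obtain ⟨i, x, rfl⟩ := hl s (by simp)
      obtain ⟨h, c', hx⟩ := hstep i (φ i c * x)
      have e1 : base φ c * of i x = of i (h : G i) * base φ c' := by
        rw [← of_apply_eq_base φ i c, ← map_mul, hx, map_mul, of_apply_eq_base]
      obtain ⟨p', hp', c'', h'⟩ := ih (fun t ht => hl t (by simp [ht]))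
        (p * of i (h : G i)) (mul_mem hp ⟨ofS φ a y₀ hac i h, kap_of φ a y₀ hac i h⟩) c'
      refine ⟨p', hp', c'', ?_⟩
      rw [← h', List.prod_cons]
      calc p * base φ c * (of i x * l.prod) = p * (base φ c * of i x) * l.prod := by
            simp only [mul_assoc]
        _ = p * of i (h : G i) * base φ c' * l.prod := by rw [e1]; simp only [mul_assoc]
  obtain ⟨l, hl, rfl⟩ := gen_pushout g
  obtain ⟨p, hp, c, h⟩ := hlist l hl 1 (one_mem _) 1
  rw [map_one, mul_one, one_mul] at h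
  rw [h] at hg ⊢
  obtain ⟨q, rfl⟩ := hp
  have h1 : base φ c ∈ stab (pact φ a hac) y₀ := by
    have h2 : kap φ a y₀ hac q ∈ stab (pact φ a hac) y₀ := kap_stab φ a y₀ hac q
    have h3 := mul_mem (inv_mem h2) hg
    rwa [inv_mul_cancel_left] at h3
  rw [mem_stab, pact_base] at h1
  exact mul_mem ⟨q, rfl⟩ ⟨base (smap φ a y₀ hac) ⟨c, h1⟩, kap_base φ a y₀ hac ⟨c, h1⟩⟩

variable {φ a y₀}

/-- Amalgams acting on a space with asymptotic property C such that the common subgroup is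
transitive on the orbits of a point and the amalgam of the stabilisers has many compatible
endomorphisms. -/
theorem amalgam_fibered (hφ : ∀ i, Function.Injective (φ i))
    (hG : ∀ i, ∃ d : G i → G i → ℝ, ProperMetric d ∧ (∀ g x y : G i, d (g * x) (g * y) = d x y) ∧
      HasAPC d)
    (dY : Y → Y → ℝ) (hY : ProperMetric dY) (hYC : HasAPC dY)
    (hYa : ∀ i (g : G i) (x y : Y), dY (a i g x) (a i g y) = dY x y)
    (hac : ∀ c : C, a false (φ false c) = a true (φ true c))
    (htr : ∀ i (g : G i), ∃ c : C, a i g y₀ = a i (φ i c) y₀)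
    (h : LocalEndos (smap φ a y₀ hac))
    (d : PushoutI φ → PushoutI φ → ℝ) (hd : ProperMetric d)
    (hdi : ∀ g x y : PushoutI φ, d (g * x) (g * y) = d x y) : HasAPC d := by
  have hαi : ∀ g x y, dY (pact φ a hac g x) (pact φ a hac g y) = dY x y := by
    intro g
    induction g using PushoutI.induction_on with
    | of i g => intro x y; rw [pact_of]; exact hYa i g x y
    | base c => intro x y; rw [pact_base]; exact hYa true _ x y
    | mul g g' h h' => intro x y; rw [map_mul, Equiv.Perm.mul_apply, Equiv.Perm.mul_apply, h, h']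
  have hcount : Countable (PushoutI φ) := countable_of_pm hd
  have hinj := kap_injective φ a y₀ hac hφ
  have hcount' : Countable (PushoutI (smap φ a y₀ hac)) := hinj.countable
  obtain ⟨dQ, hQ, hQi⟩ := exists_properMetric (PushoutI (smap φ a y₀ hac))
  have hQC : HasAPC dQ := by
    refine amalgam_endo_fin (G := fun i => stab (a i) y₀) (φ := smap φ a y₀ hac)
      (smap_injective φ a y₀ hac hφ) ?_ ?_ dQ hQ hQi
    · intro i
      obtain ⟨dG, g1, g2, g3⟩ := hG i
      exact ⟨_, proper_comap g1 (fun x : stab (a i) y₀ => (x : G i)) Subtype.val_injective,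
        fun g x y => g2 _ _ _, APC_comap g3 _⟩
    · exact h
  refine apc_of_stab hd hdi dY hY hYC (pact φ a hac) hαi y₀ ?_
  have hlift : ∀ g : stab (pact φ a hac) y₀, ∃ q, kap φ a y₀ hac q = g := fun g =>
    kap_range φ a y₀ hac htr g g.2
  choose q hq using hlift
  have hqm : ∀ g g', q (g * g') = q g * q g' := by
    intro g g'
    apply hinj
    rw [map_mul, hq, hq, hq]
    rfl
  refine ⟨fun x y => dQ (q x) (q y), proper_comap hQ q (fun x y hxy => ?_), fun g x y => ?_,
    APC_comap hQC q⟩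
  · apply Subtype.ext
    rw [← hq x, ← hq y, hxy]
  · show dQ (q (g * x)) (q (g * y)) = dQ (q x) (q y)
    rw [hqm, hqm, hQi]

end

end Pool.Agent.Lib.MP_1df68a_gt
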