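import Pool.Agent.Lib.MP_1df68a_gt.LM.Stmts29
import Pool.Agent.Lib.MP_1df68a_gt.LM.Core29

set_option autoImplicit false

/-! Proof of the metric theorem. -/

namespace Pool.Agent.Lib.MP_1df68a_gt

open Relation Finset

theorem PMet.nonneg {X : Type} {d : X → X → ℝ} (h : PMet d) (x y : X) : 0 ≤ d x y := by
  have h1 := h.tri x y x
  rw [h.self, h.symm y x] at h1
  linarith

/-- Chain components. -/
def Ch {X : Type} (d : X → X → ℝ) (Z : Set X) (ρ : ℝ) (x y : X) : Prop :=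
  ReflTransGen (fun a b => a ∈ Z ∧ b ∈ Z ∧ d a b ≤ ρ) x y

theorem Ch.symm {X : Type} {d : X → X → ℝ} (h : PMet d) {Z : Set X} {ρ : ℝ} {x y : X}
    (hxy : Ch d Z ρ x y) : Ch d Z ρ y x := by
  induction hxy with
  | refl => exact ReflTransGen.refl
  | tail _ hbc ih => exact ReflTransGen.head ⟨hbc.2.1, hbc.1, by rw [h.symm]; exact hbc.2.2⟩ ih

/-- The family of the chain components of a set with bounded chain components. -/
theorem comps {X : Type} {d : X → X → ℝ} (h : PMet d) (Z : Set X) (ρ D : ℝ)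
    (hD : ∀ x y, x ∈ Z → Ch d Z ρ x y → d x y ≤ D) :
    ∃ U : Set (Set X), (∃ B : ℝ, ∀ V ∈ U, ∀ x ∈ V, ∀ y ∈ V, d x y ≤ B) ∧
      (∀ V ∈ U, ∀ W ∈ U, V ≠ W → ∀ x ∈ V, ∀ y ∈ W, ρ < d x y) ∧
      ∀ x ∈ Z, ∃ V ∈ U, x ∈ V := by
  refine ⟨{V | ∃ x ∈ Z, V = {y | Ch d Z ρ x y}}, ⟨D + D, ?_⟩, ?_, ?_⟩
  · rintro V ⟨x0, hx0, rfl⟩ x hx y hy
    have h1 := hD x0 x hx0 hx
    have h2 := hD x0 y hx0 hy
    have h3 := h.tri x x0 y
    rw [h.symm x x0] at h3
    linarith
  · rintro V ⟨x0, hx0, rfl⟩ W ⟨y0, hy0, rfl⟩ hne x hx y hy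
    by_contra hlt
    push Not at hlt
    apply hne
    have hxZ : x ∈ Z := by
      rcases ReflTransGen.cases_tail hx with h' | ⟨c, _, h'⟩
      · rw [h']; exact hx0
      · exact h'.2.1
    have hyZ : y ∈ Z := by
      rcases ReflTransGen.cases_tail hy with h' | ⟨c, _, h'⟩
      · rw [h']; exact hy0
      · exact h'.2.1
    have hx0y : Ch d Z ρ x0 y := ReflTransGen.tail hx ⟨hxZ, hyZ, hlt⟩
    have hx0y0 : Ch d Z ρ x0 y0 := ReflTransGen.trans hx0y (Ch.symm h hy)
    ext z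
    constructor
    · intro hz
      exact ReflTransGen.trans (Ch.symm h hx0y0) hz
    · intro hz
      exact ReflTransGen.trans hx0y0 hz
  · intro x hx
    exact ⟨_, ⟨x, hx, rfl⟩, ReflTransGen.refl⟩

theorem exists_k (δ : ℝ) (Δ B : ℕ) (h0 : 0 ≤ δ) (hΔ : 0 < Δ) (h : δ * Δ ≤ 1 / 4) :
    ∃ k : ℕ, 0 < k ∧ 4 * δ ^ k * ((k : ℝ) ^ 2 * B * (Δ : ℝ) ^ k) ≤ 1 ∧ 2 * δ ^ k < 1 := by
  have hδ1 : δ ≤ 1 / 4 := by
    have : δ * 1 ≤ δ * Δ := by
      apply mul_le_mul_of_nonneg_left _ h0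
      exact_mod_cast hΔ
    linarith
  have ht := tendsto_pow_const_mul_const_pow_of_abs_lt_one 2 (r := (1 / 4 : ℝ)) (by
    rw [abs_of_pos (by norm_num)]; norm_num)
  have hev := (ht.eventually (gt_mem_nhds (show (0 : ℝ) < 1 / (4 * (B + 1)) by positivity))).and
    (Filter.eventually_gt_atTop 0)
  obtain ⟨k, hk, hk0⟩ := hev.exists
  refine ⟨k, hk0, ?_, ?_⟩
  · have h1 : (δ * Δ) ^ k ≤ (1 / 4) ^ k := pow_le_pow_left₀ (by positivity) h k
    have h2 : 4 * δ ^ k * ((k : ℝ) ^ 2 * B * (Δ : ℝ) ^ k) =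
        4 * B * ((k : ℝ) ^ 2 * (δ * Δ) ^ k) := by rw [mul_pow]; ring
    rw [h2]
    have h3 : (k : ℝ) ^ 2 * (δ * Δ) ^ k ≤ 1 / (4 * (B + 1)) :=
      (mul_le_mul_of_nonneg_left h1 (by positivity)).trans hk.le
    calc 4 * (B : ℝ) * ((k : ℝ) ^ 2 * (δ * Δ) ^ k) ≤ 4 * B * (1 / (4 * (B + 1))) :=
          mul_le_mul_of_nonneg_left h3 (by positivity)
      _ ≤ 1 := by
          rw [mul_one_div, div_le_one (by positivity)]
          linarith
  · have : δ ^ k ≤ (1 / 4) ^ 1 :=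
      (pow_le_pow_left₀ h0 hδ1 k).trans (pow_le_pow_of_le_one (by norm_num) (by norm_num) hk0)
    linarith

/-- `y` is within `t` of `U`. -/
def near {Y : Type} (dY : Y → Y → ℝ) (U : Set Y) (t : ℝ) (y : Y) : Prop := ∃ v ∈ U, dY y v ≤ t

theorem near.step {Y : Type} {dY : Y → Y → ℝ} (h : PMet dY) {U : Set Y} {t s t' : ℝ} {y z : Y}
    (hy : near dY U t y) (hyz : dY z y ≤ s) (ht : s + t ≤ t') : near dY U t' z := by
  obtain ⟨v, hv, hyv⟩ := hy
  exact ⟨v, hv, (h.tri z y v).trans (by linarith)⟩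

theorem stA : StA := by
  classical
  intro X d hd hB hY R hR
  obtain ⟨Y, dY, f, hdY, hYC, hborn, hprop⟩ := hY (R 0) (hR 0)
  choose bρ hbρ using hborn
  choose N hNf hN using hB
  choose DP hDP using hprop
  -- pieces
  let P : X → Set X := fun x => {y | ReflTransGen (fun a b => d a b ≤ R 0) x y}
  have hPself : ∀ x, x ∈ P x := fun x => ReflTransGen.refl
  have hrsymm : ∀ x y, ReflTransGen (fun a b => d a b ≤ R 0) x y →
      ReflTransGen (fun a b => d a b ≤ R 0) y x := by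
    intro x y h
    induction h with
    | refl => exact ReflTransGen.refl
    | tail _ hbc ih => exact ReflTransGen.head (by rw [hd.symm]; exact hbc) ih
  have hPeq : ∀ x y, P x = P y → ReflTransGen (fun a b => d a b ≤ R 0) x y := by
    intro x y h
    have : y ∈ P x := by rw [h]; exact hPself y
    exact this
  have hPof : ∀ x y, d x y ≤ R 0 → P x = P y := by
    intro x y h
    ext z
    constructor
    · intro hz
      exact ReflTransGen.head (by rw [hd.symm]; exact h) hz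
    · intro hz
      exact ReflTransGen.head h hz
  -- small cells
  obtain ⟨q, V, hV1, hV2, hV3⟩ := hYC (fun k => max (bρ (R (k + 1))) 1)
    (fun k => lt_of_lt_of_le one_pos (le_max_right _ _))
  choose col hcol cell hcell hfcell using fun x => hV3 (f x)
  choose! Bk hBk using hV1
  set s : ℝ := 1 + ∑ k ∈ range q, |Bk k| with hs
  have hs1 : 1 ≤ s := by
    have : 0 ≤ ∑ k ∈ range q, |Bk k| := sum_nonneg fun _ _ => abs_nonneg _
    linarith
  have hsle : ∀ x y, col x = col y → cell x = cell y → dY (f x) (f y) ≤ s := by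
    intro x y h1 h2
    have h3 : dY (f x) (f y) ≤ Bk (col x) :=
      hBk (col x) (hcol x) (cell x) (hcell x) _ (hfcell x) _ (by rw [h2]; exact hfcell y)
    have h4 : |Bk (col x)| ≤ ∑ k ∈ range q, |Bk k| :=
      single_le_sum (f := fun k => |Bk k|) (fun _ _ => abs_nonneg _) (mem_range.2 (hcol x))
    have h5 := le_abs_self (Bk (col x))
    linarith
  set r : ℝ := 1 + ∑ k ∈ range q, R (k + 1) with hr
  have hr0 : 0 ≤ r := by
    have : 0 ≤ ∑ k ∈ range q, R (k + 1) := sum_nonneg fun _ _ => (hR _).le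
    linarith
  have hrle : ∀ k < q, R (k + 1) ≤ r := by
    intro k hk
    have : R (k + 1) ≤ ∑ k ∈ range q, R (k + 1) :=
      single_le_sum (f := fun k => R (k + 1)) (fun _ _ => (hR _).le) (mem_range.2 hk)
    linarith
  set Ds : ℝ := max (DP s) 0 with hDs
  have hDs0 : 0 ≤ Ds := le_max_right _ _
  have hDsle : ∀ x y, P x = P y → dY (f x) (f y) ≤ s → d x y ≤ Ds := fun x y h1 h2 =>
    (hDP s x y (hPeq x y h1) h2).trans (le_max_left _ _)
  -- atoms
  let at' : X → Set X × ℕ × Set Y := fun x => (P x, col x, cell x)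
  have hatd : ∀ x y, at' x = at' y → d x y ≤ Ds := by
    intro x y h
    have h1 : P x = P y := congrArg Prod.fst h
    have h2 : (col x, cell x) = (col y, cell y) := congrArg Prod.snd h
    exact hDsle x y h1 (hsle x y (congrArg Prod.fst h2) (congrArg Prod.snd h2))
  let lk : Set X × ℕ × Set Y → Set X × ℕ × Set Y → Prop := fun α β =>
    ∃ x y, at' x = α ∧ at' y = β ∧ α.2 = β.2 ∧ d x y ≤ r
  have hlksymm : ∀ α β, lk α β → lk β α := by
    rintro α β ⟨x, y, h1, h2, h3, h4⟩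
    exact ⟨y, x, h2, h1, h3.symm, by rw [hd.symm]; exact h4⟩
  let ball : X → ℝ → Finset X := fun x t => (hNf t x).toFinset
  have hball : ∀ x t y, y ∈ ball x t ↔ d x y ≤ t := by
    intro x t y
    exact (hNf t x).mem_toFinset
  have hballc : ∀ x t, (ball x t).card ≤ N t := by
    intro x t
    have := hN t x
    rwa [Set.ncard_eq_toFinset_card _ (hNf t x)] at this
  let nbh : ℝ → Set X × ℕ × Set Y → Finset (Set X × ℕ × Set Y) := fun t α =>
    if h : ∃ x, at' x = α then (ball h.choose t).image at' else ∅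
  have hnbhc : ∀ t α, (nbh t α).card ≤ N t := by
    intro t α
    simp only [nbh]
    split_ifs with h
    · exact card_image_le.trans (hballc _ _)
    · simp
  have hnbh : ∀ t α x y, at' x = α → d x y ≤ t → at' y ∈ nbh (Ds + t) α := by
    intro t α x y hx hxy
    have h : ∃ x, at' x = α := ⟨x, hx⟩
    simp only [nbh]
    rw [dif_pos h, mem_image]
    refine ⟨y, ?_, rfl⟩
    rw [hball]
    have h1 := hatd h.choose x (by rw [h.choose_spec, hx])
    have h2 := hd.tri h.choose x y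
    linarith
  set Δ : ℕ := N (Ds + r) + 1 with hΔ
  have hΔ0 : 0 < Δ := Nat.succ_pos _
  have hΔR : (0 : ℝ) < Δ := by exact_mod_cast hΔ0
  -- big scales
  set ρ0 : ℝ := max (bρ (R 0)) 0 with hρ0
  have hρ00 : 0 ≤ ρ0 := le_max_right _ _
  have hρ0le : ∀ x y, d x y ≤ R 0 → dY (f x) (f y) ≤ ρ0 := fun x y h =>
    (hbρ _ x y h).trans (le_max_left _ _)
  set hh : ℝ := 2 * ρ0 + s with hhh
  have hh0 : 0 < hh := by linarith
  let M : ℕ → ℕ := fun j => 2 ^ j * (8 * Δ)
  have hM0 : ∀ j, 0 < M j := fun j => by positivity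
  let L : ℕ → ℝ := fun j => 2 * (hh * M j + ρ0) + s
  obtain ⟨p, V', hV'1, hV'2, hV'3⟩ := hYC L (fun j => by
    have : 0 ≤ hh * M j := by positivity
    show 0 < 2 * (hh * M j + ρ0) + s
    linarith)
  choose! Bk' hBk' using hV'1
  set K : ℕ := 8 * Δ * 2 ^ p with hK
  have hK0 : 0 < K := by positivity
  let m : Set X × ℕ × Set Y → ℕ := fun i => if i.2.1 < p then M i.2.1 else 1
  have hmK : ∀ i, m i ∣ K := by
    intro i
    simp only [m]
    split_ifs with h
    · show 2 ^ i.2.1 * (8 * Δ) ∣ 8 * Δ * 2 ^ p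
      rw [mul_comm]
      exact Nat.mul_dvd_mul_left _ (pow_dvd_pow 2 h.le)
    · exact one_dvd _
  -- the variables of an atom
  let TS : Set X × ℕ × Set Y → Set (Set X × ℕ × Set Y) := fun α =>
    {i | i.1 = α.1 ∧ i.2.1 < p ∧ i.2.2 ∈ V' i.2.1 ∧
      ∃ x, at' x = α ∧ near dY i.2.2 (hh * M i.2.1 + ρ0) (f x)}
  have hTSinj : ∀ α, Set.InjOn (fun i : Set X × ℕ × Set Y => i.2.1) (TS α) := by
    rintro α ⟨a, j, U⟩ ⟨ha, hj, hU, x, hx, v, hv, hxv⟩ ⟨a', j', U'⟩
      ⟨ha', hj', hU', x', hx', v', hv', hxv'⟩ hjj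
    have hjj' : j = j' := hjj
    subst hjj'
    have ha1 : a = α.1 := ha
    have ha1' : a' = α.1 := ha'
    have hUU : U = U' := by
      by_contra hne
      have h1 := hV'2 j hj U hU U' hU' hne v hv v' hv'
      have h2 := hdY.tri v (f x) v'
      have h3 := hdY.tri (f x) (f x') v'
      have h4 : dY (f x) (f x') ≤ s := by
        have h5 : at' x = at' x' := by rw [hx, hx']
        have h6 : (col x, cell x) = (col x', cell x') := congrArg Prod.snd h5
        exact hsle x x' (congrArg Prod.fst h6) (congrArg Prod.snd h6)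
      have h7 : dY v (f x) ≤ hh * M j + ρ0 := by rw [hdY.symm]; exact hxv
      have h8 : dY (f x') v' ≤ hh * M j + ρ0 := hxv'
      have h9 : (2 * (hh * M j + ρ0) + s : ℝ) < dY v v' := h1
      linarith
    rw [ha1, ha1', hUU]
  have hTSfin : ∀ α, (TS α).Finite := fun α =>
    Set.Finite.of_injOn (f := fun i : Set X × ℕ × Set Y => i.2.1) (t := Set.Iio p)
      (fun i hi => hi.2.1) (hTSinj α) (Set.finite_Iio p)
  let T : Set X × ℕ × Set Y → Finset (Set X × ℕ × Set Y) := fun α => (hTSfin α).toFinset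
  have hT : ∀ α i, i ∈ T α ↔ i ∈ TS α := fun α i => (hTSfin α).mem_toFinset
  -- the events
  let cut : Set X × ℕ × Set Y → (Set X × ℕ × Set Y → Fin K) → Prop := fun α ω =>
    ∃ x, at' x = α ∧ ∃ j < p, ∃ U ∈ V' j,
      near dY U (hh * (((ω (α.1, j, U) : ℕ) % M j + 1 : ℕ) : ℝ) + ρ0) (f x) ∧
      ¬ near dY U (hh * (((ω (α.1, j, U) : ℕ) % M j + 1 : ℕ) : ℝ) - ρ0) (f x)
  have hlab : ∀ (j n : ℕ), ((n % M j + 1 : ℕ) : ℝ) ≤ M j := by
    intro j n
    exact_mod_cast Nat.mod_lt n (hM0 j)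
  have hmemT : ∀ α (ω : Set X × ℕ × Set Y → Fin K) x j U, at' x = α → j < p → U ∈ V' j →
      near dY U (hh * (((ω (α.1, j, U) : ℕ) % M j + 1 : ℕ) : ℝ) + ρ0) (f x) →
      (α.1, j, U) ∈ T α := by
    intro α ω x j U hx hj hU hn
    rw [hT]
    refine ⟨rfl, hj, hU, x, hx, ?_⟩
    obtain ⟨v, hv, hxv⟩ := hn
    refine ⟨v, hv, hxv.trans ?_⟩
    have := mul_le_mul_of_nonneg_left (hlab j (ω (α.1, j, U))) hh0.le
    linarith
  have hdet : ∀ α ω ω', (∀ i ∈ T α, ω i = ω' i) → cut α ω → cut α ω' := by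
    rintro α ω ω' h ⟨x, hx, j, hj, U, hU, hn1, hn2⟩
    have hi := hmemT α ω x j U hx hj hU hn1
    refine ⟨x, hx, j, hj, U, hU, ?_, ?_⟩
    · rw [← h _ hi]; exact hn1
    · rw [← h _ hi]; exact hn2
  let c : Set X × ℕ × Set Y → Set X × ℕ × Set Y → ℕ := fun α i =>
    if h : ∃ n : ℕ, ∃ x, at' x = α ∧ near dY i.2.2 (hh * ((n + 1 : ℕ) : ℝ) + ρ0) (f x) ∧
      ¬ near dY i.2.2 (hh * ((n + 1 : ℕ) : ℝ) - ρ0) (f x) then h.choose else 0
  have hcuniq : ∀ α (U : Set Y) (n n' : ℕ) x x', at' x = α → at' x' = α →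
      near dY U (hh * ((n + 1 : ℕ) : ℝ) + ρ0) (f x) →
      ¬ near dY U (hh * ((n' + 1 : ℕ) : ℝ) - ρ0) (f x') → ¬ n < n' := by
    intro α U n n' x x' hx hx' h1 h2 hlt
    apply h2
    have h4 : dY (f x') (f x) ≤ s := by
      have h5 : at' x' = at' x := by rw [hx, hx']
      have h6 : (col x', cell x') = (col x, cell x) := congrArg Prod.snd h5
      exact hsle x' x (congrArg Prod.fst h6) (congrArg Prod.snd h6)
    refine h1.step hdY h4 ?_
    have h7 : ((n + 1 : ℕ) : ℝ) + 1 ≤ ((n' + 1 : ℕ) : ℝ) := by exact_mod_cast Nat.succ_le_succ hlt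
    have h8 := mul_le_mul_of_nonneg_left h7 hh0.le
    rw [mul_add, mul_one] at h8
    linarith
  have hcut : ∀ α ω, cut α ω → ∃ i ∈ T α, (ω i : ℕ) % m i = c α i := by
    rintro α ω ⟨x, hx, j, hj, U, hU, hn1, hn2⟩
    refine ⟨(α.1, j, U), hmemT α ω x j U hx hj hU hn1, ?_⟩
    have hmj : m (α.1, j, U) = M j := by
      show (if j < p then M j else 1) = M j
      rw [if_pos hj]
    rw [hmj]
    have hex : ∃ n : ℕ, ∃ x, at' x = α ∧ near dY U (hh * ((n + 1 : ℕ) : ℝ) + ρ0) (f x) ∧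
      ¬ near dY U (hh * ((n + 1 : ℕ) : ℝ) - ρ0) (f x) := ⟨_, x, hx, hn1, hn2⟩
    have hce : c α (α.1, j, U) = hex.choose := by
      show (if h : ∃ n : ℕ, ∃ x, at' x = α ∧ near dY U (hh * ((n + 1 : ℕ) : ℝ) + ρ0) (f x) ∧
        ¬ near dY U (hh * ((n + 1 : ℕ) : ℝ) - ρ0) (f x) then h.choose else 0) = _
      rw [dif_pos hex]
    rw [hce]
    obtain ⟨x', hx', hn1', hn2'⟩ := hex.choose_spec
    apply le_antisymm
    · exact not_lt.1 (hcuniq α U _ _ x' x hx' hx hn1' hn2)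
    · exact not_lt.1 (hcuniq α U _ _ x x' hx hx' hn1 hn2')
  set δ : ℝ := 1 / (4 * Δ) with hδ
  have hδ0 : 0 ≤ δ := by positivity
  have hsum : ∀ α, ∑ i ∈ T α, (1 / (m i : ℝ)) ≤ δ := by
    intro α
    have h1 : ∑ i ∈ T α, (1 / (m i : ℝ)) = ∑ i ∈ T α, (1 / (M i.2.1 : ℝ)) := by
      apply sum_congr rfl
      intro i hi
      rw [hT] at hi
      have : m i = M i.2.1 := if_pos hi.2.1
      rw [this]
    have h2 : ∑ i ∈ T α, (1 / (M i.2.1 : ℝ)) =
        ∑ j ∈ (T α).image (fun i => i.2.1), (1 / (M j : ℝ)) := by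
      rw [sum_image]
      intro i hi i' hi' hii
      exact hTSinj α ((hT α i).1 hi) ((hT α i').1 hi') hii
    rw [h1, h2]
    have h3 : (T α).image (fun i => i.2.1) ⊆ range p := by
      intro j hj
      obtain ⟨i, hi, rfl⟩ := mem_image.1 hj
      exact mem_range.2 ((hT α i).1 hi).2.1
    refine (sum_le_sum_of_subset_of_nonneg h3 fun _ _ _ => by positivity).trans ?_
    have h4 : ∀ j, (1 / (M j : ℝ)) = (1 / (8 * Δ)) * (1 / 2) ^ j := by
      intro j
      show 1 / (((2 ^ j * (8 * Δ) : ℕ)) : ℝ) = _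
      push_cast
      rw [one_div_pow, mul_comm, one_div_mul_one_div]
    simp_rw [h4]
    rw [← mul_sum]
    have h5 := sum_geometric_two_le p
    calc 1 / (8 * (Δ : ℝ)) * ∑ i ∈ range p, (1 / 2 : ℝ) ^ i ≤ 1 / (8 * (Δ : ℝ)) * 2 :=
          mul_le_mul_of_nonneg_left h5 (by positivity)
      _ = δ := by rw [hδ]; field_simp; norm_num
  -- sharing
  set Λ : ℝ := ∑ j ∈ range p, (2 * (hh * M j + ρ0) + |Bk' j|) with hΛ
  set DΛ : ℝ := DP Λ with hDΛ
  have hshare : ∀ α β, ¬ Disjoint (T α) (T β) → β ∈ nbh (Ds + DΛ) α := by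
    intro α β h
    rw [Finset.not_disjoint_iff] at h
    obtain ⟨i, hi, hi'⟩ := h
    rw [hT] at hi hi'
    obtain ⟨ha, hj, hU, x, hx, v, hv, hxv⟩ := hi
    obtain ⟨hb, -, -, y, hy, v', hv', hyv'⟩ := hi'
    have hxy : dY (f x) (f y) ≤ Λ := by
      have h1 := hBk' i.2.1 hj i.2.2 hU v hv v' hv'
      have h2 := hdY.tri (f x) v (f y)
      have h3 := hdY.tri v v' (f y)
      rw [hdY.symm v' (f y)] at h3
      have h4 : 2 * (hh * M i.2.1 + ρ0) + |Bk' i.2.1| ≤ Λ :=
        single_le_sum (f := fun j => 2 * (hh * M j + ρ0) + |Bk' j|) (fun j _ => by positivity)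
          (mem_range.2 hj)
      have h5 := le_abs_self (Bk' i.2.1)
      linarith
    have hPxy : P x = P y := by
      have h1 : P x = α.1 := congrArg Prod.fst hx
      have h2 : P y = β.1 := congrArg Prod.fst hy
      rw [h1, h2, ← ha, ← hb]
    have hdxy : d x y ≤ DΛ := hDP Λ x y (hPeq x y hPxy) hxy
    have := hnbh DΛ α x y hx hdxy
    rwa [hy] at this
  obtain ⟨k, hk0, hk1, hk2⟩ := exists_k δ Δ (N (Ds + DΛ)) hδ0 hΔ0 (by
    rw [hδ]; field_simp; norm_num)
  obtain ⟨ω, hω⟩ := LM.core hK0 T cut hdet m hmK c hcut δ hδ0 hsum lk (fun α => α.2)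
    (by rintro α β ⟨x, y, h1, h2, h3, h4⟩; exact h3)
    (by
      intro α β h hne
      rw [Finset.disjoint_left]
      intro i hi hi'
      rw [hT] at hi hi'
      exact hne (Prod.ext (hi.1.symm.trans hi'.1) h))
    Δ (N (Ds + DΛ)) k hΔ0 (nbh (Ds + r)) (fun α => (hnbhc _ α).trans (Nat.le_succ _))
    (by
      rintro α β ⟨x, y, h1, h2, h3, h4⟩
      rw [← h2]
      exact hnbh r α x y h1 h4)
    (by
      intro α β h
      obtain ⟨x, y, h1, h2, h3, h4⟩ := hlksymm α β h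
      rw [← h2]
      exact hnbh r β x y h1 h4)
    (nbh (Ds + DΛ)) (hnbhc _) hshare hk1 hk2
  -- the walls
  let Gr : SimpleGraph (Set X × ℕ × Set Y) :=
    { Adj := fun α β => α ≠ β ∧ lk α β ∧ cut α ω ∧ cut β ω
      symm := ⟨fun α β h => ⟨h.1.symm, hlksymm _ _ h.2.1, h.2.2.2, h.2.2.1⟩⟩
      loopless := ⟨fun α h => h.1 rfl⟩ }
  have hpath : ∀ α β (w : Gr.Walk α β), w.IsPath → w.length < k := by
    intro α β w hw
    by_contra hlen
    push Not at hlen
    refine hω (fun i : Fin k => w.getVert i) ?_ ?_ ?_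
    · intro i i' hii
      have h1 : (i : ℕ) < w.length := lt_of_lt_of_le i.2 hlen
      have h2 := w.adj_getVert_succ h1
      rw [hii] at h2
      exact h2.2.1
    · intro i i' hii
      have hi1 : (i : ℕ) ∈ {i | i ≤ w.length} := by
        show (i : ℕ) ≤ w.length
        have := i.2
        omega
      have hi2 : (i' : ℕ) ∈ {i | i ≤ w.length} := by
        show (i' : ℕ) ≤ w.length
        have := i'.2
        omega
      exact Fin.ext (hw.getVert_injOn hi1 hi2 hii)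
    · intro i
      have h1 : (i : ℕ) < w.length := lt_of_lt_of_le i.2 hlen
      exact (w.adj_getVert_succ h1).2.2.1
  have hwalk : ∀ α β (w : Gr.Walk α β) x y, at' x = α → at' y = β →
      d x y ≤ Ds + w.length * (Ds + r) := by
    intro α β w
    induction w with
    | nil =>
      intro x y hx hy
      have := hatd x y (by rw [hx, hy])
      simpa using this
    | cons h w ih =>
      intro x y hx hy
      obtain ⟨x', y', h1, h2, h3, h4⟩ := h.2.1
      have h5 := ih y' y h2 hy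
      have h6 := hatd x x' (by rw [hx, h1])
      have h7 := hd.tri x x' y
      have h8 := hd.tri x' y' y
      rw [SimpleGraph.Walk.length_cons]
      push_cast
      linarith
  have hfam0 : ∃ D, ∀ x y, x ∈ {x | ¬ cut (at' x) ω} → Ch d {x | ¬ cut (at' x) ω} (R 0) x y →
      d x y ≤ D := by
    refine ⟨DP Λ, fun x y hx hxy => ?_⟩
    obtain ⟨j, hj, U, hU, hxU⟩ := hV'3 (f x)
    set ℓ : ℝ := (((ω (P x, j, U) : ℕ) % M j + 1 : ℕ) : ℝ) with hℓ
    have hℓ0 : 0 ≤ ℓ := Nat.cast_nonneg _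
    have key : ∀ y, Ch d {x | ¬ cut (at' x) ω} (R 0) x y → P x = P y ∧ near dY U (hh * ℓ) (f y) := by
      intro y hy
      induction hy with
      | refl => exact ⟨rfl, f x, hxU, by rw [hdY.self]; positivity⟩
      | @tail b z _ hbz ih =>
        obtain ⟨hb, hz, hbz⟩ := hbz
        refine ⟨ih.1.trans (hPof b z hbz), ?_⟩
        have hb1 : near dY U (hh * ℓ - ρ0) (f b) := by
          by_contra hnb
          apply hb
          refine ⟨b, rfl, j, hj, U, hU, ?_, ?_⟩
          · show near dY U (hh * (((ω (P b, j, U) : ℕ) % M j + 1 : ℕ) : ℝ) + ρ0) (f b)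
            rw [← ih.1]
            obtain ⟨v, hv, hbv⟩ := ih.2
            exact ⟨v, hv, hbv.trans (by linarith)⟩
          · show ¬ near dY U (hh * (((ω (P b, j, U) : ℕ) % M j + 1 : ℕ) : ℝ) - ρ0) (f b)
            rw [← ih.1]
            exact hnb
        exact hb1.step hdY (hρ0le z b (by rw [hd.symm]; exact hbz)) (by linarith)
    obtain ⟨h1, v, hv, hyv⟩ := key y hxy
    apply hDP Λ x y (hPeq x y h1)
    have h2 := hBk' j hj U hU (f x) hxU v hv
    have h3 := hdY.tri (f x) v (f y)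
    rw [hdY.symm v (f y)] at h3
    have h4 : 2 * (hh * M j + ρ0) + |Bk' j| ≤ Λ :=
      single_le_sum (f := fun j => 2 * (hh * M j + ρ0) + |Bk' j|) (fun j _ => by positivity)
        (mem_range.2 hj)
    have h5 := le_abs_self (Bk' j)
    have h6 := mul_le_mul_of_nonneg_left (hlab j (ω (P x, j, U))) hh0.le
    have h7 : 0 ≤ hh * (M j : ℝ) := by positivity
    linarith
  have hfam : ∀ i < q, ∃ D, ∀ x y, x ∈ {x | cut (at' x) ω ∧ col x = i} →
      Ch d {x | cut (at' x) ω ∧ col x = i} (R (i + 1)) x y → d x y ≤ D := by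
    intro i hi
    refine ⟨Ds + k * (Ds + r), fun x y hx hxy => ?_⟩
    have key : ∀ y, Ch d {x | cut (at' x) ω ∧ col x = i} (R (i + 1)) x y →
        Gr.Reachable (at' x) (at' y) := by
      intro y hy
      induction hy with
      | refl => exact SimpleGraph.Reachable.refl _
      | @tail b z _ hbz ih =>
        obtain ⟨⟨hb, hbi⟩, ⟨hz, hzi⟩, hbz⟩ := hbz
        by_cases he : at' b = at' z
        · rw [← he]; exact ih
        · refine ih.trans (SimpleGraph.Adj.reachable ⟨he, ⟨b, z, rfl, rfl, ?_, ?_⟩, hb, hz⟩)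
          · have hcc : cell b = cell z := by
              by_contra hne
              have h1 := hV2 i hi (cell b) (by rw [← hbi]; exact hcell b) (cell z)
                (by rw [← hzi]; exact hcell z) hne (f b) (hfcell b) (f z) (hfcell z)
              have h2 := hbρ (R (i + 1)) b z hbz
              have h3 := le_max_left (bρ (R (i + 1))) 1
              exact absurd (h2.trans h3) (not_le.2 h1)
            show (col b, cell b) = (col z, cell z)
            rw [hbi, hzi, hcc]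
          · exact hbz.trans (hrle i hi)
    obtain ⟨w⟩ := key y hxy
    obtain ⟨w, hw⟩ := w.toPath
    have h1 := hwalk _ _ w x y rfl rfl
    have h2 := hpath _ _ w hw
    have h3 : (w.length : ℝ) ≤ k := by exact_mod_cast h2.le
    have h4 : (w.length : ℝ) * (Ds + r) ≤ k * (Ds + r) :=
      mul_le_mul_of_nonneg_right h3 (by linarith)
    linarith
  obtain ⟨D0, hD0⟩ := hfam0
  choose! Di hDi using hfam
  obtain ⟨U0, hU01, hU02, hU03⟩ := comps hd _ _ D0 hD0
  have hUi : ∀ i, ∃ U : Set (Set X), i < q → (∃ B : ℝ, ∀ V ∈ U, ∀ x ∈ V, ∀ y ∈ V, d x y ≤ B) ∧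
      (∀ V ∈ U, ∀ W ∈ U, V ≠ W → ∀ x ∈ V, ∀ y ∈ W, R (i + 1) < d x y) ∧
      ∀ x ∈ {x | cut (at' x) ω ∧ col x = i}, ∃ V ∈ U, x ∈ V := by
    intro i
    by_cases hi : i < q
    · obtain ⟨U, h1, h2, h3⟩ := comps hd _ _ (Di i) (hDi i hi)
      exact ⟨U, fun _ => ⟨h1, h2, h3⟩⟩
    · exact ⟨∅, fun h => absurd h hi⟩
  choose Ui hUi using hUi
  refine ⟨q + 1, fun i => match i with | 0 => U0 | i + 1 => Ui i, ?_, ?_, ?_⟩
  · intro i hi
    cases i with
    | zero => exact hU01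
    | succ i => exact (hUi i (by omega)).1
  · intro i hi
    cases i with
    | zero => exact hU02
    | succ i => exact (hUi i (by omega)).2.1
  · intro x
    by_cases hx : cut (at' x) ω
    · obtain ⟨V, hV, hxV⟩ := (hUi (col x) (hcol x)).2.2 x ⟨hx, rfl⟩
      exact ⟨col x + 1, Nat.succ_lt_succ (hcol x), V, hV, hxV⟩
    · obtain ⟨V, hV, hxV⟩ := hU03 x hx
      exact ⟨0, Nat.succ_pos _, V, hV, hxV⟩

end Pool.Agent.Lib.MP_1df68a_gt
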