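import Pool.Agent.Lib.MP_1df68a_gt.Defs

set_option autoImplicit false

/-! Maps to spaces with asymptotic property C which are uniformly proper on the `R`-chain
components: statements of the modules. -/

namespace Pool.Agent.Lib.MP_1df68a_gt

open Relation

/-- A pseudometric. -/
structure PMet {X : Type} (d : X → X → ℝ) : Prop where
  symm : ∀ x y, d x y = d y x
  self : ∀ x, d x x = 0
  tri : ∀ x y z, d x z ≤ d x y + d y z

/-- Balls have uniformly bounded cardinality. -/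
def BGeo {X : Type} (d : X → X → ℝ) : Prop :=
  ∀ r : ℝ, ∃ N : ℕ, ∀ x : X, {y | d x y ≤ r}.Finite ∧ {y | d x y ≤ r}.ncard ≤ N

/-- `f` is bornologous. -/
def Born {X Y : Type} (d : X → X → ℝ) (dY : Y → Y → ℝ) (f : X → Y) : Prop :=
  ∀ r : ℝ, ∃ ρ : ℝ, ∀ x y, d x y ≤ r → dY (f x) (f y) ≤ ρ

/-- `f` is uniformly proper on the `R`-chain components. -/
def ProperOn {X Y : Type} (d : X → X → ℝ) (dY : Y → Y → ℝ) (f : X → Y) (R : ℝ) : Prop :=
  ∀ ρ : ℝ, ∃ D : ℝ, ∀ x y, ReflTransGen (fun a b => d a b ≤ R) x y → dY (f x) (f y) ≤ ρ →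
    d x y ≤ D

/-- The metric theorem. -/
def StA : Prop :=
  ∀ (X : Type) (d : X → X → ℝ), PMet d → BGeo d →
    (∀ R : ℝ, 0 < R → ∃ (Y : Type) (dY : Y → Y → ℝ) (f : X → Y), PMet dY ∧ HasAPC dY ∧
      Born d dY f ∧ ProperOn d dY f R) → HasAPC d

end Pool.Agent.Lib.MP_1df68a_gt
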